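import Pool.Agent.H44.RK.Hard

/-!
# The hard family over the prime field
-/

namespace Pool.Agent.H44.RK

open Polynomial Module Matrix
open scoped ENNReal

variable {p : ℕ} [hp : Fact p.Prime] {K : Type} [Field K] [Algebra (ZMod p) K] {a : ℕ} [NeZero a]
  (b : Basis (Fin a) (ZMod p) K) (Λ : Type) [Fintype Λ] [DecidableEq Λ]

/-- Index set of one block. -/
abbrev Z (Λ : Type) (p a : ℕ) : Type := (Y Λ p a × Fin a) ⊕ (Y Λ p a × Fin a)

/-- Number of blocks. -/
def len (p a : ℕ) : ℕ := (2 * a + 3) * (p * a + 1) + 1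

/-- The families over the prime field. -/
noncomputable def FM : List (List (Equiv.Perm (Y Λ p a × Fin a)) ×
    ((Y Λ p a → K) → Matrix (Y Λ p a × Fin a) (Y Λ p a × Fin a) (ZMod p))) :=
  (KM b Λ 0).map fun m => (perms (sh Λ m.1), fun s => phi b (m.2 s))

/-- The hard family. -/
noncomputable def AM (s : Y Λ p a → K) :
    Matrix (Fin (len p a) × Z Λ p a) (Fin (len p a) × Z Λ p a) (ZMod p) :=
  chainN (len p a) ((bigF (FM b Λ)).map fun B => B s)

theorem length_AM (s : Y Λ p a → K) : ((bigF (FM b Λ)).map fun B => B s).length = len p a := by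
  rw [bigF_eval, length_big _ (p * a)]
  · simp only [FM, List.length_map, length_KM, len]
  · intro m hm
    simp only [FM, List.mem_map, List.map_map, Function.comp_apply] at hm
    obtain ⟨m', -, rfl⟩ := hm
    simp only
    rw [length_perms]
    simp [ZMod.card]

theorem pr_AM [CharP K p] (s : Y Λ p a → K) :
    pr ((bigF (FM b Λ)).map fun B => B s) = fromBlocks (phi b (BK b Λ s)) 0 0 0 := by
  rw [bigF_eval, pr_big]
  · congr 1
    rw [BK, ← pr_KM b Λ 0 s, phi_pr]
    congr 1
    simp only [FM, List.map_map]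
    rfl
  · intro m hm
    simp only [FM, List.mem_map, List.map_map, Function.comp_apply] at hm
    obtain ⟨m', hm', rfl⟩ := hm
    simp only
    exact sum_part b (sh Λ m'.1) (fun y δ δ' h => sh_inj Λ m'.1 y δ δ' h) _ (dir_KM b Λ 0 s m' hm')

theorem len_pos : 0 < len p a := Nat.succ_pos _

theorem rank_AM [CharP K p] (s : Y Λ p a → K) :
    (AM b Λ s).rank + Fintype.card (Z Λ p a) = len p a * Fintype.card (Z Λ p a) +
      (fromBlocks (phi b (BK b Λ s)) 0 0 0 : Matrix (Z Λ p a) (Z Λ p a) (ZMod p)).rank := by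
  unfold AM
  rw [rank_chainN _ _ (length_AM b Λ s) len_pos, pr_AM]

theorem card_Z : Fintype.card (Z Λ p a) = 2 * (Fintype.card Λ * p ^ a * a) := by
  simp only [Z, Y, Fintype.card_sum, Fintype.card_prod, Fintype.card_fin, Fintype.card_fun,
    ZMod.card]
  ring

theorem rank_AM_zero [CharP K p] (ha : 2 ≤ a) (s : Y Λ p a → K) (hs : s ∈ DD b Λ) :
    (AM b Λ s).rank + Fintype.card (Z Λ p a) = len p a * Fintype.card (Z Λ p a) := by
  rw [rank_AM, BK_eq_zero b Λ ha s hs, map_zero, fromBlocks_zero, Matrix.rank_zero, add_zero]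

theorem rank_AM_ee [CharP K p] (ha : 2 ≤ a) (s : Y Λ p a → K) (hs : s - ee Λ ∈ DD b Λ) :
    len p a * Fintype.card (Z Λ p a) + Fintype.card Λ * p ^ (a - 2) * a
      ≤ (AM b Λ s).rank + Fintype.card (Z Λ p a) := by
  classical
  rw [rank_AM]
  refine Nat.add_le_add_left ?_ _
  refine le_trans ?_ (rank_fromBlocks_ge _)
  have hB : BK b Λ s = BK b Λ (ee Λ) := by
    have : s = (s - ee Λ) + ee Λ := by abel
    rw [this, BK_add, BK_eq_zero b Λ ha _ hs, zero_add]
  rw [hB]
  obtain ⟨U, V, hUV⟩ := BK_ee (p := p) b Λ ha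
  have h1 := rank_phi_ge b (fun y : Y Λ p a => Low y.2) U (BK b Λ (ee Λ)) V hUV
  refine le_trans ?_ h1
  rw [Fintype.card_fin]
  refine Nat.mul_le_mul_right _ ?_
  have h2 : (Finset.univ.filter fun y : Y Λ p a => Low y.2)
      = Finset.univ ×ˢ (Finset.univ.filter (Low : (Fin a → ZMod p) → Prop)) := by
    ext ⟨l, y⟩
    simp
  rw [h2, Finset.card_product, Finset.card_univ]
  exact Nat.mul_le_mul_left _ (card_Low ha)

theorem sparse_AM (s : Y Λ p a → K) : Sparse 3 (AM b Λ s) := by
  unfold AM
  refine sparse_chainN _ _ (length_AM b Λ s) 2 ?_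
  rw [bigF_eval]
  exact sparse_big _

theorem loc_AM [Nonempty Λ] : Loc (AM b Λ) := by
  haveI : Nonempty (Y Λ p a) := ⟨(Classical.arbitrary Λ, fun _ => 0)⟩
  refine loc_chainN _ _ (loc_bigF _ ?_)
  intro m hm
  simp only [FM, List.mem_map] at hm
  obtain ⟨m', hm', rfl⟩ := hm
  exact eloc_phi b _ (eloc_KM b Λ 0 m' hm')

section Pad

variable {R F : Type} [Fintype R] [DecidableEq R] [Field F] {n : ℕ} (g : R → Fin n)

/-- Padding by zero rows and columns. -/
def pad (M : Matrix R R F) : Matrix (Fin n) (Fin n) F :=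
  (Matrix.of fun i x => if i = g x then (1 : F) else 0) * M *
    (Matrix.of fun x j => if g x = j then (1 : F) else 0)

omit [DecidableEq R] in
theorem pad_apply (hg : Function.Injective g) (M : Matrix R R F) (x y : R) :
    pad g M (g x) (g y) = M x y := by
  simp only [pad, Matrix.mul_apply, Matrix.of_apply]
  rw [Finset.sum_eq_single y]
  · rw [Finset.sum_eq_single x]
    · simp
    · intro z _ hz
      rw [if_neg (fun h => hz (hg h).symm), zero_mul]
    · simp
  · intro z _ hz
    rw [if_neg (fun h => hz (hg h)), mul_zero]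
  · simp

omit [DecidableEq R] in
theorem pad_left (M : Matrix R R F) (i j : Fin n) (h : ∀ x, g x ≠ i) : pad g M i j = 0 := by
  simp only [pad, Matrix.mul_apply, Matrix.of_apply]
  refine Finset.sum_eq_zero fun y _ => ?_
  rw [Finset.sum_eq_zero, zero_mul]
  intro x _
  rw [if_neg (fun hh => h x hh.symm), zero_mul]

omit [DecidableEq R] in
theorem pad_right (M : Matrix R R F) (i j : Fin n) (h : ∀ x, g x ≠ j) : pad g M i j = 0 := by
  simp only [pad, Matrix.mul_apply, Matrix.of_apply]
  refine Finset.sum_eq_zero fun y _ => ?_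
  rw [if_neg (h y), mul_zero]

omit [DecidableEq R] in
theorem rank_pad (hg : Function.Injective g) (M : Matrix R R F) : (pad g M).rank = M.rank := by
  apply le_antisymm
  · unfold pad
    exact (rank_mul_le_left _ _).trans (rank_mul_le_right _ _)
  · have : M = (pad g M).submatrix g g := by
      ext x y
      rw [Matrix.submatrix_apply, pad_apply g hg]
    conv_lhs => rw [this]
    exact rank_submatrix_le _ _ _

omit [DecidableEq R] in
theorem sparse_pad (hg : Function.Injective g) (k : ℕ) (M : Matrix R R F) (hM : Sparse k M) :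
    Sparse k (pad g M) := by
  classical
  refine ⟨fun i => ?_, fun j => ?_⟩
  · by_cases hi : ∃ x, g x = i
    · obtain ⟨x, rfl⟩ := hi
      refine le_trans ?_ (hM.1 x)
      refine (Finset.card_le_card (t := (Finset.univ.filter fun y => M x y ≠ 0).image g) ?_).trans
        (Finset.card_image_le.trans (le_of_eq ?_))
      · intro j hj
        rw [Finset.mem_filter] at hj
        by_cases hj' : ∃ y, g y = j
        · obtain ⟨y, rfl⟩ := hj'
          rw [pad_apply g hg] at hj
          exact Finset.mem_image_of_mem _ (by simpa using hj.2)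
        · push Not at hj'
          exact absurd (pad_right g M _ _ hj') hj.2
      · congr 1
    · push Not at hi
      refine (Finset.card_eq_zero.2 ?_).le.trans (Nat.zero_le _)
      rw [Finset.filter_eq_empty_iff]
      intro j _ hne
      exact hne (pad_left g M _ _ hi)
  · by_cases hj : ∃ y, g y = j
    · obtain ⟨y, rfl⟩ := hj
      refine le_trans ?_ (hM.2 y)
      refine (Finset.card_le_card (t := (Finset.univ.filter fun x => M x y ≠ 0).image g) ?_).trans
        (Finset.card_image_le.trans (le_of_eq ?_))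
      · intro i hi
        rw [Finset.mem_filter] at hi
        by_cases hi' : ∃ x, g x = i
        · obtain ⟨x, rfl⟩ := hi'
          rw [pad_apply g hg] at hi
          exact Finset.mem_image_of_mem _ (by simpa using hi.2)
        · push Not at hi'
          exact absurd (pad_left g M _ _ hi') hi.2
      · congr 1
    · push Not at hj
      refine (Finset.card_eq_zero.2 ?_).le.trans (Nat.zero_le _)
      rw [Finset.filter_eq_empty_iff]
      intro i _ hne
      exact hne (pad_right g M _ _ hj)

omit [DecidableEq R] in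
theorem loc_pad {T S : Type} [Nonempty T] (hg : Function.Injective g) (A : (T → S) → Matrix R R F)
    (hA : Loc A) : Loc (fun s => pad g (A s)) := by
  refine ⟨fun i => ?_, fun j => ?_⟩
  · by_cases hi : ∃ x, g x = i
    · obtain ⟨x, rfl⟩ := hi
      obtain ⟨v, hv⟩ := hA.1 x
      refine ⟨v, fun s s' h j => ?_⟩
      by_cases hj : ∃ y, g y = j
      · obtain ⟨y, rfl⟩ := hj
        simp only [pad_apply g hg]
        exact hv s s' h y
      · push Not at hj
        simp only [pad_right g _ _ _ hj]
    · push Not at hi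
      refine ⟨Classical.arbitrary T, fun s s' _ j => ?_⟩
      simp only [pad_left g _ _ _ hi]
  · by_cases hj : ∃ y, g y = j
    · obtain ⟨y, rfl⟩ := hj
      obtain ⟨v, hv⟩ := hA.2 y
      refine ⟨v, fun s s' h i => ?_⟩
      by_cases hi : ∃ x, g x = i
      · obtain ⟨x, rfl⟩ := hi
        simp only [pad_apply g hg]
        exact hv s s' h x
      · push Not at hi
        simp only [pad_left g _ _ _ hi]
    · push Not at hj
      refine ⟨Classical.arbitrary T, fun s s' _ i => ?_⟩
      simp only [pad_right g _ _ _ hj]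

end Pad

end Pool.Agent.H44.RK
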