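import Pool.Agent.H44.RK.FFT

/-!
# Assembly of the hard family of sparse matrices
-/

namespace Pool.Agent.H44.RK

open Polynomial Module Matrix
open scoped Kronecker

section Kr

variable {Λ I K : Type} [Fintype Λ] [DecidableEq Λ] [Fintype I] [DecidableEq I] [Field K]

/-- Block diagonal matrix with equal blocks. -/
def kr (Λ : Type) [DecidableEq Λ] (A : Matrix I I K) : Matrix (Λ × I) (Λ × I) K :=
  (1 : Matrix Λ Λ K) ⊗ₖ A

omit [Fintype Λ] [Fintype I] [DecidableEq I] in
theorem kr_apply (A : Matrix I I K) (x y : Λ × I) :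
    kr Λ A x y = if x.1 = y.1 then A x.2 y.2 else 0 := by
  obtain ⟨l, i⟩ := x
  obtain ⟨m, j⟩ := y
  simp only [kr, kronecker_apply, Matrix.one_apply]
  split_ifs <;> simp

omit [DecidableEq I] in
theorem kr_mul (A B : Matrix I I K) : kr Λ (A * B) = kr Λ A * kr Λ B := by
  unfold kr
  rw [← mul_kronecker_mul, Matrix.one_mul]

omit [Fintype Λ] [Fintype I] in
theorem kr_one : kr Λ (1 : Matrix I I K) = 1 := one_kronecker_one

omit [Fintype Λ] [Fintype I] [DecidableEq I] in
theorem kr_transpose (A : Matrix I I K) : (kr Λ A)ᵀ = kr Λ Aᵀ := by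
  ext x y
  rw [Matrix.transpose_apply, kr_apply, kr_apply, Matrix.transpose_apply]
  simp only [eq_comm]

theorem pr_kr (L : List (Matrix I I K)) : pr (L.map (kr Λ)) = kr Λ (pr L) := by
  induction L with
  | nil => simp [kr_one]
  | cons C L ih => simp [ih, kr_mul]

theorem pr_reverse_transpose (L : List (Matrix I I K)) :
    pr ((L.map Matrix.transpose).reverse) = (pr L)ᵀ := by
  induction L with
  | nil => simp
  | cons C L ih => simp [pr_append, ih, Matrix.transpose_mul]

end Kr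

section Fam

variable {p : ℕ} [hp : Fact p.Prime] {K : Type} [Field K] [Algebra (ZMod p) K] {a : ℕ}
  (b : Basis (Fin a) (ZMod p) K) (Λ : Type) [Fintype Λ] [DecidableEq Λ]

/-- The index set of the points in all copies. -/
abbrev Y (Λ : Type) (p a : ℕ) : Type := Λ × (Fin a → ZMod p)

/-- Translation of one digit. -/
def sh (i : Fin a) (δ : ZMod p) : Equiv.Perm (Y Λ p a) :=
  Equiv.prodCongr (Equiv.refl Λ) (Equiv.addRight (Pi.single i δ))

omit [Fintype Λ] [DecidableEq Λ] in
theorem sh_apply (i : Fin a) (δ : ZMod p) (y : Y Λ p a) :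
    sh Λ i δ y = (y.1, y.2 + Pi.single i δ) := rfl

omit [Fintype Λ] [DecidableEq Λ] in
theorem sh_inj (i : Fin a) (y : Y Λ p a) (δ δ' : ZMod p) (h : sh Λ i δ y = sh Λ i δ' y) :
    δ = δ' := by
  rw [sh_apply, sh_apply, Prod.mk.injEq] at h
  have := congrFun (add_left_cancel h.2) i
  simpa using this

/-- A matrix supported on translations of the digit `i`. -/
def Dir (i : Fin a) (M : Matrix (Y Λ p a) (Y Λ p a) K) : Prop :=
  ∀ y y', M y y' ≠ 0 → ∃ δ : ZMod p, y' = sh Λ i δ y

omit [Fintype Λ] in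
theorem dir_Em (i : Fin a) : Dir Λ i (kr Λ (Em b i)) := by
  classical
  intro y y' h
  rw [kr_apply] at h
  have h1 : y.1 = y'.1 := by
    by_contra hh
    exact h (if_neg hh)
  rw [if_pos h1] at h
  simp only [Em] at h
  have h2 : ∀ j, j ≠ i → y'.2 j = y.2 j := by
    by_contra hh
    exact h (if_neg hh)
  refine ⟨y'.2 i - y.2 i, ?_⟩
  rw [sh_apply]
  refine Prod.ext h1.symm ?_
  funext j
  by_cases hj : j = i
  · subst hj; simp
  · simp [Pi.single_eq_of_ne hj, h2 j hj]

omit [Algebra (ZMod p) K] [Fintype Λ] [DecidableEq Λ] in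
theorem dir_transpose (i : Fin a) (M : Matrix (Y Λ p a) (Y Λ p a) K) (h : Dir Λ i M) :
    Dir Λ i Mᵀ := by
  intro y y' hne
  obtain ⟨δ, hδ⟩ := h y' y hne
  refine ⟨-δ, ?_⟩
  rw [sh_apply] at hδ ⊢
  rw [hδ]
  refine Prod.ext rfl ?_
  simp only
  rw [add_assoc, ← Pi.single_add, add_neg_cancel, Pi.single_zero, add_zero]

omit [Algebra (ZMod p) K] [Fintype Λ] in
theorem dir_diagonal (i : Fin a) (s : Y Λ p a → K) : Dir Λ i (Matrix.diagonal s) := by
  intro y y' hne
  have : y = y' := by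
    by_contra hh
    exact hne (Matrix.diagonal_apply_ne _ hh)
  refine ⟨0, ?_⟩
  rw [sh_apply, this]
  simp

theorem kr_P0 : kr Λ (P0 : Matrix (Fin a → ZMod p) (Fin a → ZMod p) K)
    = Matrix.diagonal fun y : Y Λ p a => if Low y.2 then (1 : K) else 0 := by
  ext x y
  rw [kr_apply, Matrix.diagonal_apply]
  unfold P0
  by_cases h : x = y
  · subst h; simp
  · rw [if_neg h]
    split_ifs with h1
    · rw [Matrix.diagonal_apply_ne]
      intro h2
      exact h (Prod.ext h1 h2)
    · rfl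

/-- The matrices over `K`, with their directions, in the order in which they are applied. -/
noncomputable def KM (i0 : Fin a) : List (Fin a × ((Y Λ p a → K) → Matrix (Y Λ p a) (Y Λ p a) K)) :=
  ((i0, fun _ => kr Λ P0) :: ((List.finRange a).reverse.map fun i => (i, fun _ => kr Λ (Em b i)))) ++
  ((i0, fun s => Matrix.diagonal s) ::
    ((List.finRange a).map fun i => (i, fun _ => (kr Λ (Em b i))ᵀ))) ++
  [(i0, fun _ => kr Λ P0)]

omit [Fintype Λ] in
theorem length_KM (i0 : Fin a) : (KM b Λ i0).length = 2 * a + 3 := by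
  simp [KM]
  ring

theorem pr_KM [CharP K p] (i0 : Fin a) (s : Y Λ p a → K) :
    pr ((KM b Λ i0).map fun m => m.2 s)
      = kr Λ P0 * (kr Λ (Gm b 0))ᵀ * Matrix.diagonal s * kr Λ (Gm b 0) * kr Λ P0 := by
  have hE : pr ((((List.finRange a)).reverse).map fun i => kr Λ (Em b i)) = kr Λ (Gm b 0) := by
    have := pr_Em b 0 (Nat.zero_le _)
    rw [List.drop_zero] at this
    rw [← this, ← pr_kr, List.map_map]
    rfl
  have hT : pr (((List.finRange a)).map fun i => (kr Λ (Em b i))ᵀ) = (kr Λ (Gm b 0))ᵀ := by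
    rw [← hE, ← pr_reverse_transpose, List.map_map, ← List.map_reverse, List.reverse_reverse]
    rfl
  unfold KM
  simp only [List.map_append, List.map_cons, List.map_map, List.map_nil, pr_append, pr_cons, pr_nil,
    Matrix.one_mul, Function.comp_def]
  rw [hE, hT]
  simp only [Matrix.mul_assoc]

theorem dir_KM (i0 : Fin a) (s : Y Λ p a → K) : ∀ m ∈ KM b Λ i0, Dir Λ m.1 (m.2 s) := by
  intro m hm
  simp only [KM, List.mem_append, List.mem_cons, List.mem_map, List.not_mem_nil, or_false] at hm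
  rcases hm with ((rfl | ⟨i, -, rfl⟩) | (rfl | ⟨i, -, rfl⟩)) | rfl
  · simp only [kr_P0]; exact dir_diagonal Λ _ _
  · exact dir_Em b Λ i
  · exact dir_diagonal Λ _ _
  · exact dir_transpose Λ _ _ (dir_Em b Λ i)
  · simp only [kr_P0]; exact dir_diagonal Λ _ _

theorem eloc_KM [Nonempty Λ] (i0 : Fin a) : ∀ m ∈ KM b Λ i0, ELoc m.2 := by
  intro m hm
  haveI : Nonempty (Y Λ p a) := ⟨(Classical.arbitrary Λ, fun _ => 0)⟩
  have hc : ∀ B : Matrix (Y Λ p a) (Y Λ p a) K, ELoc (fun _ : Y Λ p a → K => B) :=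
    fun B i j => ⟨Classical.arbitrary _, fun _ _ _ => rfl⟩
  simp only [KM, List.mem_append, List.mem_cons, List.mem_map, List.not_mem_nil, or_false] at hm
  rcases hm with ((rfl | ⟨i, -, rfl⟩) | (rfl | ⟨i, -, rfl⟩)) | rfl
  · exact hc _
  · exact hc _
  · intro i j
    refine ⟨i, fun s s' h => ?_⟩
    simp only [Matrix.diagonal_apply]
    rw [h]
  · exact hc _
  · exact hc _

end Fam

end Pool.Agent.H44.RK
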