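import Mathlib

/-!
# Chain matrices: a sparse matrix whose kernel is the kernel of a product
-/

namespace Pool.Agent.H44.RK

open Matrix

variable {X F : Type} [Fintype X] [DecidableEq X] [Field F]

/-- The product of a list of square matrices, the head of the list being applied first. -/
def pr : List (Matrix X X F) → Matrix X X F
  | [] => 1
  | C :: L => pr L * C

@[simp] theorem pr_nil : pr ([] : List (Matrix X X F)) = 1 := rfl

@[simp] theorem pr_cons (C : Matrix X X F) (L : List (Matrix X X F)) : pr (C :: L) = pr L * C := rfl

theorem pr_append (L L' : List (Matrix X X F)) : pr (L ++ L') = pr L' * pr L := by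
  induction L with
  | nil => simp
  | cons C L ih => simp [ih, Matrix.mul_assoc]

/-- The chain matrix of a list `C₀, …, C_{l-1}`: diagonal blocks `Cᵢ`, and identity blocks just
above the diagonal. -/
def chain (L : List (Matrix X X F)) : Matrix (Fin L.length × X) (Fin L.length × X) F :=
  fun a b => (if a.1 = b.1 then L[a.1] a.2 b.2 else 0) +
    (if b.1.val = a.1.val + 1 ∧ a.2 = b.2 then 1 else 0)

theorem chain_mulVec (L : List (Matrix X X F)) (v : Fin L.length × X → F) (i : Fin L.length)
    (x : X) : (chain L *ᵥ v) (i, x) = (L[i] *ᵥ fun y => v (i, y)) x +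
      (if h : i.val + 1 < L.length then v (⟨i.val + 1, h⟩, x) else 0) := by
  classical
  simp only [mulVec, dotProduct, chain, add_mul, Finset.sum_add_distrib, Fintype.sum_prod_type]
  congr 1
  · rw [Finset.sum_eq_single i]
    · simp
    · intro j _ hj
      refine Finset.sum_eq_zero fun y _ => ?_
      simp [Ne.symm hj]
    · simp
  · split_ifs with h
    · rw [Finset.sum_eq_single ⟨i.val + 1, h⟩]
      · rw [Finset.sum_eq_single x]
        · simp
        · intro y _ hy
          simp [Ne.symm hy]
        · simp
      · intro j _ hj
        refine Finset.sum_eq_zero fun y _ => ?_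
        have : ¬ (j.val = i.val + 1) := fun hh => hj (Fin.ext hh)
        simp [this]
      · simp
    · refine Finset.sum_eq_zero fun j _ => Finset.sum_eq_zero fun y _ => ?_
      have : ¬ (j.val = i.val + 1) := by
        intro hh
        have := j.2
        omega
      simp [this]

theorem pr_take_succ (L : List (Matrix X X F)) (i : ℕ) (h : i < L.length) :
    pr (L.take (i + 1)) = L[i] * pr (L.take i) := by
  rw [← List.take_append_getElem h, pr_append]
  simp

/-- The kernel of the chain matrix is isomorphic to the kernel of the product. -/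
noncomputable def kerEquiv (L : List (Matrix X X F)) (hL : 0 < L.length) :
    LinearMap.ker (chain L).mulVecLin ≃ₗ[F] LinearMap.ker (pr L).mulVecLin := by
  classical
  -- candidates for kernel vectors
  let ext : (X → F) → (Fin L.length × X → F) := fun w a => (-1) ^ a.1.val * (pr (L.take a.1.val) *ᵥ w) a.2
  have hext : ∀ w : X → F, pr L *ᵥ w = 0 → chain L *ᵥ ext w = 0 := by
    intro w hw
    funext a
    obtain ⟨i, x⟩ := a
    rw [chain_mulVec]
    have h1 : (L[i] *ᵥ fun y => ext w (i, y)) x = (-1) ^ i.val * (pr (L.take (i.val + 1)) *ᵥ w) x := by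
      have : (fun y => ext w (i, y)) = (-1 : F) ^ i.val • (pr (L.take i.val) *ᵥ w) := by
        funext y; simp [ext]
      rw [this, mulVec_smul, mulVec_mulVec, pr_take_succ L i.val i.2]
      simp
    rw [h1]
    split_ifs with h
    · simp only [ext, pow_succ, Pi.zero_apply]
      ring
    · have hlen : i.val + 1 = L.length := by
        have := i.2
        omega
      rw [hlen, List.take_length, hw]
      simp
  have hker : ∀ v : Fin L.length × X → F, chain L *ᵥ v = 0 →
      v = ext (fun x => v (⟨0, hL⟩, x)) ∧ pr L *ᵥ (fun x => v (⟨0, hL⟩, x)) = 0 := by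
    intro v hv
    have hstep : ∀ i : ℕ, ∀ h : i < L.length, ∀ x, v (⟨i, h⟩, x)
        = ext (fun x => v (⟨0, hL⟩, x)) (⟨i, h⟩, x) := by
      intro i
      induction i with
      | zero => intro h x; simp [ext]
      | succ i ih =>
        intro h x
        have hi : i < L.length := by omega
        have h1 := congrFun hv (⟨i, hi⟩, x)
        rw [chain_mulVec] at h1
        simp only [h, ↓reduceDIte, Pi.zero_apply] at h1
        have h2 : (fun y => v (⟨i, hi⟩, y)) = (-1 : F) ^ i • (pr (L.take i) *ᵥ fun x => v (⟨0, hL⟩, x)) := by
          funext y; rw [ih hi y]; simp [ext]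
        have h3 : (L[(⟨i, hi⟩ : Fin L.length)] *ᵥ fun y => v (⟨i, hi⟩, y)) x
            = (-1) ^ i * (pr (L.take (i + 1)) *ᵥ fun x => v (⟨0, hL⟩, x)) x := by
          rw [h2, mulVec_smul, mulVec_mulVec, pr_take_succ L i hi]
          simp
        rw [h3] at h1
        simp only [ext, pow_succ]
        linear_combination h1
    refine ⟨funext fun a => hstep a.1.val a.1.2 a.2, ?_⟩
    funext x
    have hlast : L.length - 1 < L.length := by omega
    have h1 := congrFun hv (⟨L.length - 1, hlast⟩, x)
    rw [chain_mulVec] at h1
    have hn : ¬ (L.length - 1 + 1 < L.length) := by omega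
    simp only [hn, ↓reduceDIte, Pi.zero_apply, add_zero] at h1
    have h2 : (fun y => v (⟨L.length - 1, hlast⟩, y))
        = (-1 : F) ^ (L.length - 1) • (pr (L.take (L.length - 1)) *ᵥ fun x => v (⟨0, hL⟩, x)) := by
      funext y; rw [hstep _ hlast y]; simp [ext]
    rw [h2, mulVec_smul, mulVec_mulVec] at h1
    have h3 := pr_take_succ L (L.length - 1) hlast
    have h4 : L.length - 1 + 1 = L.length := by omega
    rw [h4, List.take_length] at h3
    have h5 : (L[(⟨L.length - 1, hlast⟩ : Fin L.length)] * pr (L.take (L.length - 1))) = pr L := by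
      rw [h3]; rfl
    rw [h5] at h1
    simp only [Pi.smul_apply, smul_eq_mul, mul_eq_zero] at h1
    rcases h1 with h1 | h1
    · exact absurd h1 (pow_ne_zero _ (by simp))
    · simpa using h1
  refine
    { toFun := fun v => ⟨fun x => v.1 (⟨0, hL⟩, x), ?_⟩
      map_add' := ?_
      map_smul' := ?_
      invFun := fun w => ⟨ext w.1, ?_⟩
      left_inv := ?_
      right_inv := ?_ }
  · exact LinearMap.mem_ker.2 (hker v.1 (LinearMap.mem_ker.1 v.2)).2
  · intro v w; rfl
  · intro c v; rfl
  · exact LinearMap.mem_ker.2 (hext w.1 (LinearMap.mem_ker.1 w.2))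
  · intro v
    apply Subtype.ext
    exact ((hker v.1 (LinearMap.mem_ker.1 v.2)).1).symm
  · intro w
    apply Subtype.ext
    funext x
    simp [ext]

/-- Rank of the chain matrix. -/
theorem rank_chain (L : List (Matrix X X F)) (hL : 0 < L.length) :
    (chain L).rank + Fintype.card X = L.length * Fintype.card X + (pr L).rank := by
  classical
  have h1 := LinearMap.finrank_range_add_finrank_ker (chain L).mulVecLin
  have h2 := LinearMap.finrank_range_add_finrank_ker (pr L).mulVecLin
  have h3 := (kerEquiv L hL).finrank_eq
  rw [Module.finrank_fintype_fun_eq_card] at h1 h2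
  rw [Fintype.card_prod, Fintype.card_fin] at h1
  unfold Matrix.rank
  omega

/-- At most `k` nonzero entries in every row and every column. -/
def Sparse {R C : Type} [Fintype R] [Fintype C] {F : Type} [Zero F] (k : ℕ) (M : Matrix R C F) :
    Prop := by
  classical
  exact (∀ i, (Finset.univ.filter fun j => M i j ≠ 0).card ≤ k) ∧
    (∀ j, (Finset.univ.filter fun i => M i j ≠ 0).card ≤ k)

theorem sparse_chain (L : List (Matrix X X F)) (k : ℕ) (h : ∀ C ∈ L, Sparse k C) :
    Sparse (k + 1) (chain L) := by
  classical
  have hmem : ∀ i : Fin L.length, L[i] ∈ L := fun i => List.getElem_mem _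
  refine ⟨?_, ?_⟩
  · rintro ⟨i, x⟩
    have h1 := (h _ (hmem i)).1 x
    have hsub : (Finset.univ.filter fun b : Fin L.length × X => chain L (i, x) b ≠ 0) ⊆
        ((Finset.univ.filter fun y => L[i] x y ≠ 0).image fun y => (i, y)) ∪
        (Finset.univ.filter fun b : Fin L.length × X => b.1.val = i.val + 1 ∧ x = b.2) := by
      rintro ⟨j, y⟩ hb
      simp only [Finset.mem_filter, Finset.mem_univ, true_and, chain] at hb
      simp only [Finset.mem_union, Finset.mem_image, Finset.mem_filter, Finset.mem_univ, true_and,
        Prod.mk.injEq]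
      by_contra hcon
      push Not at hcon
      apply hb
      have e1 : (if i = j then L[i] x y else 0) = 0 := by
        split_ifs with hij
        · subst hij
          by_contra hne
          exact hcon.1 y hne rfl rfl
        · rfl
      have e2 : (if j.val = i.val + 1 ∧ x = y then (1 : F) else 0) = 0 := by
        rw [if_neg]
        rintro ⟨h2, h3⟩
        exact hcon.2 h2 h3
      rw [e1, e2, add_zero]
    refine (Finset.card_le_card hsub).trans ((Finset.card_union_le _ _).trans ?_)
    refine add_le_add (Finset.card_image_le.trans ?_) ?_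
    · convert h1
    · rw [Finset.card_le_one]
      rintro ⟨j, y⟩ hj ⟨j', y'⟩ hj'
      simp only [Finset.mem_filter, Finset.mem_univ, true_and] at hj hj'
      ext
      · simp [hj.1, hj'.1]
      · simp [← hj.2, ← hj'.2]
  · rintro ⟨j, y⟩
    have h1 := (h _ (hmem j)).2 y
    have hsub : (Finset.univ.filter fun b : Fin L.length × X => chain L b (j, y) ≠ 0) ⊆
        ((Finset.univ.filter fun x => L[j] x y ≠ 0).image fun x => (j, x)) ∪
        (Finset.univ.filter fun b : Fin L.length × X => j.val = b.1.val + 1 ∧ b.2 = y) := by
      rintro ⟨i, x⟩ hb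
      simp only [Finset.mem_filter, Finset.mem_univ, true_and, chain] at hb
      simp only [Finset.mem_union, Finset.mem_image, Finset.mem_filter, Finset.mem_univ, true_and,
        Prod.mk.injEq]
      by_contra hcon
      push Not at hcon
      apply hb
      have e1 : (if i = j then L[i] x y else 0) = 0 := by
        split_ifs with hij
        · subst hij
          by_contra hne
          exact hcon.1 x hne rfl rfl
        · rfl
      have e2 : (if j.val = i.val + 1 ∧ x = y then (1 : F) else 0) = 0 := by
        rw [if_neg]
        rintro ⟨h2, h3⟩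
        exact hcon.2 h2 h3
      rw [e1, e2, add_zero]
    refine (Finset.card_le_card hsub).trans ((Finset.card_union_le _ _).trans ?_)
    refine add_le_add (Finset.card_image_le.trans ?_) ?_
    · convert h1
    · rw [Finset.card_le_one]
      rintro ⟨i, x⟩ hj ⟨i', x'⟩ hj'
      simp only [Finset.mem_filter, Finset.mem_univ, true_and] at hj hj'
      ext
      · simp only; omega
      · simp [hj.2, hj'.2]

end Pool.Agent.H44.RK
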