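import Pool.Agent.H44.RK.Family

/-!
# Restriction of scalars for matrices
-/

namespace Pool.Agent.H44.RK

open Matrix Module

variable {F K Y ι : Type} [Field F] [Field K] [Algebra F K] [Fintype Y] [DecidableEq Y]
  [Fintype ι] [DecidableEq ι]

/-- The matrix over `F` of a matrix over `K`, with respect to a basis of `K` over `F`. -/
noncomputable def phi (b : Basis ι F K) : Matrix Y Y K →+* Matrix (Y × ι) (Y × ι) F :=
  (Matrix.compRingEquiv Y ι F).toRingHom.comp (Algebra.leftMulMatrix b).toRingHom.mapMatrix

theorem phi_apply (b : Basis ι F K) (M : Matrix Y Y K) (y y' : Y) (u u' : ι) :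
    phi b M (y, u) (y', u') = Algebra.leftMulMatrix b (M y y') u u' := rfl

theorem phi_pr (b : Basis ι F K) (L : List (Matrix Y Y K)) :
    phi b (pr L) = pr (L.map (phi b)) := by
  induction L with
  | nil => simp
  | cons C L ih => simp [ih]

/-- A permutation of `Y` together with a translation of `ι`. -/
def shp [AddGroup ι] (σ : Equiv.Perm Y) (k : ι) : Equiv.Perm (Y × ι) :=
  Equiv.prodCongr σ (Equiv.addRight k)

/-- The list of all permutations used. -/
noncomputable def perms [AddGroup ι] {κ : Type} [Fintype κ] (σ : κ → Equiv.Perm Y) :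
    List (Equiv.Perm (Y × ι)) :=
  (Finset.univ : Finset (κ × ι)).toList.map fun q => shp (σ q.1) q.2

theorem length_perms [AddGroup ι] {κ : Type} [Fintype κ] (σ : κ → Equiv.Perm Y) :
    (perms (ι := ι) σ).length = Fintype.card κ * Fintype.card ι := by
  simp [perms, Finset.card_univ]

theorem sum_part [AddGroup ι] (b : Basis ι F K) {κ : Type} [Fintype κ] (σ : κ → Equiv.Perm Y)
    (hσ : ∀ y δ δ', σ δ y = σ δ' y → δ = δ') (M : Matrix Y Y K)
    (hM : ∀ y y', M y y' ≠ 0 → ∃ δ, y' = σ δ y) :
    ((perms (ι := ι) σ).map fun τ => part τ (phi b M)).sum = phi b M := by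
  classical
  rw [perms, List.map_map, Finset.sum_map_toList]
  ext ⟨y, u⟩ ⟨y', u'⟩
  rw [Matrix.sum_apply]
  simp only [Function.comp_apply, part, shp, Equiv.prodCongr_apply, Prod.map_apply,
    Equiv.coe_addRight, Prod.mk.injEq]
  by_cases h0 : M y y' = 0
  · simp [phi_apply, h0]
  · obtain ⟨δ, hδ⟩ := hM y y' h0
    rw [Finset.sum_eq_single (δ, -u + u')]
    · simp [hδ]
    · rintro ⟨δ', k⟩ - hne
      rw [if_neg]
      rintro ⟨h1, h2⟩
      apply hne
      have e1 : δ' = δ := hσ y δ' δ (h1.symm.trans hδ)
      have e2 : k = -u + u' := by rw [h2]; simp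
      rw [e1, e2]
    · simp

theorem eloc_phi {T S : Type} (b : Basis ι F K) (M : (T → S) → Matrix Y Y K) (hM : ELoc M) :
    ELoc (fun s => phi b (M s)) := by
  rintro ⟨y, u⟩ ⟨y', u'⟩
  obtain ⟨v, hv⟩ := hM y y'
  refine ⟨v, fun s s' h => ?_⟩
  simp only [phi_apply]
  rw [hv s s' h]

theorem rank_phi_diag (b : Basis ι F K) (P : Y → Prop) [DecidablePred P] :
    (phi b (Matrix.diagonal fun y => if P y then (1 : K) else 0)).rank
      = (Finset.univ.filter P).card * Fintype.card ι := by
  classical
  have h : phi b (Matrix.diagonal fun y => if P y then (1 : K) else 0)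
      = Matrix.diagonal fun q : Y × ι => if P q.1 then (1 : F) else 0 := by
    ext ⟨y, u⟩ ⟨y', u'⟩
    rw [phi_apply]
    by_cases hy : y = y'
    · subst hy
      by_cases hp : P y
      · by_cases hu : u = u'
        · subst hu; simp [hp]
        · simp [hp, hu, Matrix.one_apply]
      · simp [hp, Matrix.diagonal_apply]
    · simp [hy, Matrix.diagonal_apply]
  rw [h, Matrix.rank_diagonal]
  rw [← Fintype.card_coe (Finset.univ.filter P), ← Fintype.card_prod]
  refine Fintype.card_congr
    { toFun := fun q => (⟨q.1.1, ?_⟩, q.1.2)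
      invFun := fun q => ⟨(q.1.1, q.2), ?_⟩
      left_inv := ?_
      right_inv := ?_ }
  · have := q.2
    simp only [ne_eq, ite_eq_right_iff, one_ne_zero, imp_false, not_not] at this
    simpa using this
  · have := q.1.2
    simp only [Finset.mem_filter, Finset.mem_univ, true_and] at this
    simp [this]
  · intro q; rfl
  · intro q; rfl

theorem rank_phi_ge (b : Basis ι F K) (P : Y → Prop) [DecidablePred P] (U B V : Matrix Y Y K)
    (h : U * B * V = Matrix.diagonal fun y => if P y then (1 : K) else 0) :
    (Finset.univ.filter P).card * Fintype.card ι ≤ (phi b B).rank := by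
  rw [← rank_phi_diag b P, ← h, map_mul, map_mul]
  exact (rank_mul_le_left _ _).trans (rank_mul_le_right _ _)

end Pool.Agent.H44.RK
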