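import Pool.Agent.H44.RK.Lin
import Pool.Agent.H44.RK.Expand

/-!
# The additive fast Fourier transform as a product of sparse matrices
-/

namespace Pool.Agent.H44.RK

open Polynomial Module Matrix

variable {p : ℕ} [hp : Fact p.Prime] {K : Type} [Field K] [Algebra (ZMod p) K] {a : ℕ}
  (b : Basis (Fin a) (ZMod p) K)

/-- One layer of the transform. -/
noncomputable def Em (i : Fin a) : Matrix (Fin a → ZMod p) (Fin a → ZMod p) K := by
  classical
  exact fun y y' => if ∀ j, j ≠ i → y' j = y j then cf b i y ^ (y' i).val else 0

/-- Product of the layers `≥ k`. -/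
noncomputable def Gm (k : ℕ) : Matrix (Fin a → ZMod p) (Fin a → ZMod p) K := by
  classical
  exact fun y z => if ∀ l : Fin a, l.val < k → y l = z l then
    ∏ l ∈ Finset.univ.filter (fun l : Fin a => k ≤ l.val), cf b l y ^ (z l).val else 0

theorem Gm_last : Gm b a = 1 := by
  classical
  funext y z
  have hempty : (Finset.univ.filter fun l : Fin a => a ≤ l.val) = ∅ := by
    rw [Finset.filter_eq_empty_iff]
    intro l _
    have := l.2
    omega
  simp only [Gm, hempty, Finset.prod_empty]
  by_cases h : y = z
  · subst h; simp
  · rw [if_neg, Matrix.one_apply_ne h]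
    intro h'
    exact h (funext fun l => h' l l.2)

theorem Em_mul_Gm [CharP K p] (k : ℕ) (h : k < a) : Em b ⟨k, h⟩ * Gm b (k + 1) = Gm b k := by
  classical
  funext y z
  rw [Matrix.mul_apply]
  set i : Fin a := ⟨k, h⟩ with hi
  rw [Finset.sum_eq_single (Function.update y i (z i))]
  · have hE : Em b i y (Function.update y i (z i)) = cf b i y ^ (z i).val := by
      simp only [Em]
      rw [if_pos]
      · simp
      · intro j hj; rw [Function.update_of_ne hj]
    rw [hE]
    simp only [Gm]
    have hfil : (Finset.univ.filter fun l : Fin a => k ≤ l.val)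
        = insert i (Finset.univ.filter fun l : Fin a => k + 1 ≤ l.val) := by
      ext l
      simp only [Finset.mem_filter, Finset.mem_univ, true_and, Finset.mem_insert, hi, Fin.ext_iff]
      omega
    have hni : i ∉ (Finset.univ.filter fun l : Fin a => k + 1 ≤ l.val) := by
      simp [hi]
    have hcond : (∀ l : Fin a, l.val < k + 1 → Function.update y i (z i) l = z l) ↔
        (∀ l : Fin a, l.val < k → y l = z l) := by
      constructor
      · intro hh l hl
        have := hh l (by omega)
        have hne : l ≠ i := by
          intro hli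
          rw [hli, hi] at hl
          simp at hl
        rwa [Function.update_of_ne hne] at this
      · intro hh l hl
        by_cases hli : l = i
        · subst hli; simp
        · rw [Function.update_of_ne hli]
          refine hh l ?_
          have : l.val ≠ k := fun h' => hli (Fin.ext h')
          omega
    by_cases hc : ∀ l : Fin a, l.val < k → y l = z l
    · rw [if_pos (hcond.2 hc), if_pos hc, hfil, Finset.prod_insert hni]
      congr 1
      refine Finset.prod_congr rfl fun l hl => ?_
      rw [cf_update]
      simp only [Finset.mem_filter, Finset.mem_univ, true_and] at hl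
      rw [hi, Fin.lt_def]
      exact hl
    · rw [if_neg (fun h' => hc (hcond.1 h')), if_neg hc, mul_zero]
  · intro y' _ hne
    by_contra hcon
    apply hne
    have h1 : Em b i y y' ≠ 0 := left_ne_zero_of_mul hcon
    have h2 : Gm b (k + 1) y' z ≠ 0 := right_ne_zero_of_mul hcon
    simp only [Em] at h1
    simp only [Gm] at h2
    have h1' : ∀ j, j ≠ i → y' j = y j := by
      by_contra hh
      exact h1 (if_neg hh)
    have h2' : ∀ l : Fin a, l.val < k + 1 → y' l = z l := by
      by_contra hh
      exact h2 (if_neg hh)
    funext l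
    by_cases hl : l = i
    · subst hl
      rw [Function.update_self]
      exact h2' _ (by simp [hi])
    · rw [Function.update_of_ne hl]
      exact h1' l hl
  · intro hh
    exact absurd (Finset.mem_univ _) hh

theorem pr_Em [CharP K p] (k : ℕ) (h : k ≤ a) :
    pr ((((List.finRange a).drop k).reverse).map (Em b)) = Gm b k := by
  induction hk : a - k generalizing k with
  | zero =>
    have : k = a := by omega
    subst this
    rw [Gm_last, List.drop_eq_nil_of_le (by simp)]
    simp
  | succ n ih =>
    have hlt : k < a := by omega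
    have h1 := ih (k + 1) (by omega) (by omega)
    rw [List.drop_eq_getElem_cons (by simpa using hlt), List.reverse_cons, List.map_append,
      pr_append, h1]
    simp only [List.map_cons, List.map_nil, pr_cons, pr_nil, Matrix.one_mul, List.getElem_finRange]
    exact Em_mul_Gm b k hlt

theorem Gm_zero (y z : Fin a → ZMod p) : Gm b 0 y z = (Xz b z).eval (pt b y) := by
  classical
  rw [Xz_eval]
  simp [Gm]

/-- Low vectors: the last two digits vanish. -/
def Low (y : Fin a → ZMod p) : Prop := ∀ l : Fin a, a - 2 ≤ l.val → y l = 0

noncomputable instance : DecidablePred (Low : (Fin a → ZMod p) → Prop) := Classical.decPred _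

theorem card_Low (ha : 2 ≤ a) :
    p ^ (a - 2) ≤ (Finset.univ.filter (Low : (Fin a → ZMod p) → Prop)).card := by
  classical
  let ex : (Fin (a - 2) → ZMod p) → (Fin a → ZMod p) := fun y j =>
    if h : j.val < a - 2 then y ⟨j.val, h⟩ else 0
  have hex : Function.Injective ex := by
    intro y y' h
    funext j
    have hj : j.val < a := by have := j.2; omega
    have := congrFun h ⟨j.val, hj⟩
    simp only [ex] at this
    rw [dif_pos j.2, dif_pos j.2] at this
    exact this
  have h1 : (Finset.univ.image ex).card = p ^ (a - 2) := by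
    rw [Finset.card_image_of_injective _ hex]
    simp [ZMod.card]
  rw [← h1]
  refine Finset.card_le_card ?_
  intro y hy
  simp only [Finset.mem_image, Finset.mem_univ, true_and] at hy
  obtain ⟨w, rfl⟩ := hy
  simp only [Finset.mem_filter, Finset.mem_univ, true_and, Low]
  intro l hl
  exact dif_neg (by omega)

/-- The projection onto low vectors. -/
noncomputable def P0 : Matrix (Fin a → ZMod p) (Fin a → ZMod p) K :=
  Matrix.diagonal fun y => if Low y then 1 else 0

/-- Injectivity of evaluation at the low points of combinations of low polynomials. -/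
theorem low_inj [CharP K p] (ha : 2 ≤ a) (w : {z : Fin a → ZMod p // Low z} → K)
    (h : ∀ y : {z : Fin a → ZMod p // Low z}, ∑ z, Gm b 0 y.1 z.1 * w z = 0) : w = 0 := by
  classical
  by_contra hw
  obtain ⟨z0, hz0⟩ := Function.ne_iff.1 hw
  simp only [Pi.zero_apply] at hz0
  set f : K[X] := ∑ z : {z : Fin a → ZMod p // Low z}, C (w z) * Xz b z.1 with hf
  have hdeg : ∀ z : {z : Fin a → ZMod p // Low z}, w z ≠ 0 →
      (C (w z) * Xz b z.1).degree = (num z.1 : ℕ) := by
    intro z hz
    rw [degree_C_mul hz, degree_eq_natDegree (Xz_ne_zero b _), Xz_natDegree]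
  have hfne : f ≠ 0 := by
    intro hf0
    have hsup := degree_sum_eq_of_disjoint
      (fun z : {z : Fin a → ZMod p // Low z} => C (w z) * Xz b z.1) Finset.univ (by
        intro z hz z' hz' hne
        simp only [Set.mem_ofPred_eq, Finset.mem_univ, true_and] at hz hz' ⊢
        have hwz : w z ≠ 0 := by
          intro h0; apply hz; rw [h0]; simp
        have hwz' : w z' ≠ 0 := by
          intro h0; apply hz'; rw [h0]; simp
        rw [Function.onFun, Function.comp_apply, Function.comp_apply, hdeg z hwz, hdeg z' hwz']
        intro heq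
        apply hne
        apply Subtype.ext
        apply num_injective
        exact_mod_cast heq)
    rw [← hf, hf0, degree_zero] at hsup
    have h1 := Finset.le_sup (f := fun z : {z : Fin a → ZMod p // Low z} =>
      (C (w z) * Xz b z.1).degree) (Finset.mem_univ z0)
    rw [← hsup] at h1
    simp only [hdeg z0 hz0, le_bot_iff] at h1
    exact absurd h1 (by simp)
  have hnat : f.natDegree < p ^ (a - 2) := by
    refine (natDegree_sum_le _ _).trans_lt ?_
    rw [Finset.fold_max_lt]
    refine ⟨pow_pos hp.out.pos _, ?_⟩
    intro z _
    refine (natDegree_C_mul_le _ _).trans_lt ?_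
    rw [Xz_natDegree]
    exact num_lt z.1 (a - 2) z.2
  let Z : Finset K := (Finset.univ.filter (Low : (Fin a → ZMod p) → Prop)).image (pt b)
  have hZ : p ^ (a - 2) ≤ Z.card := by
    rw [Finset.card_image_of_injective _ (pt_injective b)]
    exact card_Low ha
  have hroots : Z.val ⊆ f.roots := by
    intro x hx
    simp only [Z, Finset.image_val, Multiset.mem_dedup, Multiset.mem_map, Finset.mem_val,
      Finset.mem_filter, Finset.mem_univ, true_and] at hx
    obtain ⟨y, hy, rfl⟩ := hx
    rw [mem_roots hfne, IsRoot.def, hf, eval_finsetSum]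
    rw [← h ⟨y, hy⟩]
    refine Finset.sum_congr rfl fun z _ => ?_
    rw [eval_mul, eval_C, Gm_zero, mul_comm]
  have := card_le_degree_of_subset_roots hroots
  omega

/-- The projected transform has a right inverse. -/
theorem exists_right_inv [CharP K p] (ha : 2 ≤ a) :
    ∃ R : Matrix (Fin a → ZMod p) (Fin a → ZMod p) K, (P0 * Gm b 0 * P0) * R = P0 := by
  classical
  let V : Matrix {z : Fin a → ZMod p // Low z} {z : Fin a → ZMod p // Low z} K :=
    fun y z => Gm b 0 y.1 z.1
  have hinj : Function.Injective V.mulVec := by
    intro w w' h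
    have : w - w' = 0 := by
      apply low_inj b ha
      intro y
      have := congrFun h y
      have h2 : (V *ᵥ (w - w')) y = 0 := by
        rw [Matrix.mulVec_sub, Pi.sub_apply, this, sub_self]
      exact h2
    exact sub_eq_zero.1 this
  have hunit : IsUnit V := Matrix.mulVec_injective_iff_isUnit.1 hinj
  obtain ⟨W, hW⟩ := hunit.exists_right_inv
  refine ⟨Matrix.of fun z y => if h : Low z ∧ Low y then W ⟨z, h.1⟩ ⟨y, h.2⟩ else 0, ?_⟩
  ext y y'
  rw [Matrix.mul_apply]
  simp only [Matrix.of_apply]
  have hPGP : ∀ y z : Fin a → ZMod p,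
      (P0 * Gm b 0 * P0 : Matrix (Fin a → ZMod p) (Fin a → ZMod p) K) y z
      = if Low y ∧ Low z then Gm b 0 y z else 0 := by
    intro y z
    unfold P0
    rw [Matrix.mul_diagonal, Matrix.diagonal_mul]
    by_cases h1 : Low y <;> by_cases h2 : Low z <;> simp [h1, h2]
  simp only [hPGP]
  by_cases hy : Low y
  · by_cases hy' : Low y'
    · have h1 : ∑ z : Fin a → ZMod p, (if Low y ∧ Low z then Gm b 0 y z else 0) *
          (if h : Low z ∧ Low y' then W ⟨z, h.1⟩ ⟨y', h.2⟩ else 0)
          = ∑ z : {z : Fin a → ZMod p // Low z}, V ⟨y, hy⟩ z * W z ⟨y', hy'⟩ := by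
        rw [← Finset.sum_subset (Finset.subset_univ (Finset.univ.filter (Low : (Fin a → ZMod p) → Prop)))]
        · rw [Finset.sum_subtype (Finset.univ.filter (Low : (Fin a → ZMod p) → Prop))
            (p := Low) (by simp)]
          refine Finset.sum_congr rfl fun z _ => ?_
          rw [if_pos ⟨hy, z.2⟩, dif_pos ⟨z.2, hy'⟩]
        · intro z _ hz
          simp only [Finset.mem_filter, Finset.mem_univ, true_and] at hz
          rw [if_neg (fun h => hz h.2), zero_mul]
      rw [h1]
      have h2 := congrFun (congrFun hW ⟨y, hy⟩) ⟨y', hy'⟩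
      rw [Matrix.mul_apply] at h2
      rw [h2]
      unfold P0
      by_cases hyy : y = y'
      · subst hyy; simp [hy]
      · rw [Matrix.diagonal_apply_ne _ hyy, Matrix.one_apply_ne]
        intro h'
        exact hyy (congrArg Subtype.val h')
    · have : ∀ z : Fin a → ZMod p, ¬ (Low z ∧ Low y') := fun z h => hy' h.2
      simp only [this, dite_false, mul_zero, Finset.sum_const_zero]
      unfold P0
      rw [Matrix.diagonal_apply, if_neg]
      rintro rfl
      exact hy' hy
  · simp only [hy, false_and, if_false, zero_mul, Finset.sum_const_zero]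
    unfold P0
    rw [Matrix.diagonal_apply]
    simp [hy]

end Pool.Agent.H44.RK
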