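import Pool.Agent.H44.RK.Steps

/-!
# Families of matrices depending on hidden coordinates
-/

namespace Pool.Agent.H44.RK

open Matrix

variable {X F T K : Type} [Fintype X] [DecidableEq X] [Field F]

/-- The chain matrix with a prescribed number of blocks. -/
def chainN (l : ℕ) (L : List (Matrix X X F)) : Matrix (Fin l × X) (Fin l × X) F :=
  fun a b => (if a.1 = b.1 then (L.getD a.1.val 0) a.2 b.2 else 0) +
    (if b.1.val = a.1.val + 1 ∧ a.2 = b.2 then 1 else 0)

omit [Fintype X] in
theorem chainN_length (L : List (Matrix X X F)) : chainN L.length L = chain L := by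
  funext a b
  simp only [chainN, chain]
  congr 2
  rw [List.getD_eq_getElem _ _ a.1.2]
  rfl

theorem rank_chainN (l : ℕ) (L : List (Matrix X X F)) (h : L.length = l) (hl : 0 < l) :
    (chainN l L).rank + Fintype.card X = l * Fintype.card X + (pr L).rank := by
  subst h
  rw [chainN_length]
  exact rank_chain L hl

theorem sparse_chainN (l : ℕ) (L : List (Matrix X X F)) (h : L.length = l) (k : ℕ)
    (hk : ∀ C ∈ L, Sparse k C) : Sparse (k + 1) (chainN l L) := by
  subst h
  rw [chainN_length]
  exact sparse_chain L k hk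

/-- Every row and every column of the matrix depends on at most one coordinate of `s`. -/
def Loc {R C F : Type} (B : (T → K) → Matrix R C F) : Prop :=
  (∀ i, ∃ v : T, ∀ s s' : T → K, s v = s' v → ∀ j, B s i j = B s' i j) ∧
  (∀ j, ∃ v : T, ∀ s s' : T → K, s v = s' v → ∀ i, B s i j = B s' i j)

/-- Every entry of the matrix depends on at most one coordinate of `s`. -/
def ELoc {R C F : Type} (B : (T → K) → Matrix R C F) : Prop :=
  ∀ i j, ∃ v : T, ∀ s s' : T → K, s v = s' v → B s i j = B s' i j

theorem loc_const [Nonempty T] {R C F : Type} (B : Matrix R C F) :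
    Loc (fun _ : T → K => B) :=
  ⟨fun _ => ⟨Classical.arbitrary T, fun _ _ _ _ => rfl⟩,
    fun _ => ⟨Classical.arbitrary T, fun _ _ _ _ => rfl⟩⟩

omit [Fintype X] in
theorem loc_tstep [Nonempty T] (τ : Equiv.Perm X) (M : (T → K) → Matrix X X F) (hM : ELoc M) :
    Loc (fun s => tstep τ (M s)) := by
  refine ⟨?_, ?_⟩
  · rintro (x | x)
    · refine ⟨Classical.arbitrary T, fun s s' _ j => ?_⟩
      rcases j with y | y <;> rfl
    · obtain ⟨v, hv⟩ := hM x (τ x)
      refine ⟨v, fun s s' h j => ?_⟩
      rcases j with y | y
      · simp only [tstep, fromBlocks_apply₂₁, part]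
        split_ifs with hy
        · subst hy; exact hv s s' h
        · rfl
      · rfl
  · rintro (y | y)
    · obtain ⟨v, hv⟩ := hM (τ.symm y) y
      refine ⟨v, fun s s' h i => ?_⟩
      rcases i with x | x
      · rfl
      · simp only [tstep, fromBlocks_apply₂₁, part]
        split_ifs with hy
        · have : x = τ.symm y := by simp [hy]
          subst this; exact hv s s' h
        · rfl
    · refine ⟨Classical.arbitrary T, fun s s' _ i => ?_⟩
      rcases i with x | x <;> rfl

/-- The list of steps, as a list of families. -/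
def bigF (Ms : List (List (Equiv.Perm X) × ((T → K) → Matrix X X F))) :
    List ((T → K) → Matrix (X ⊕ X) (X ⊕ X) F) :=
  (fun _ => pstep) :: Ms.flatMap fun m =>
    (m.1.map fun τ => fun s => tstep τ (m.2 s)) ++ [fun _ => sstep]

omit [Fintype X] in
theorem bigF_eval (Ms : List (List (Equiv.Perm X) × ((T → K) → Matrix X X F))) (s : T → K) :
    (bigF Ms).map (fun B => B s) = big (Ms.map fun m => (m.1, m.2 s)) := by
  simp only [bigF, big, List.map_cons, List.cons.injEq, true_and]
  induction Ms with
  | nil => rfl
  | cons m Ms ih =>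
    simp only [List.flatMap_cons, List.map_append, List.map_cons, List.map_nil, List.map_map, ih,
      gadget]
    rfl

omit [Fintype X] in
theorem loc_bigF [Nonempty T] (Ms : List (List (Equiv.Perm X) × ((T → K) → Matrix X X F)))
    (h : ∀ m ∈ Ms, ELoc m.2) : ∀ B ∈ bigF Ms, Loc B := by
  intro B hB
  simp only [bigF, List.mem_cons, List.mem_flatMap, List.mem_append, List.mem_map,
    List.not_mem_nil, or_false] at hB
  rcases hB with rfl | ⟨m, hm, ⟨τ, -, rfl⟩ | rfl⟩
  · exact loc_const _
  · exact loc_tstep τ m.2 (h m hm)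
  · exact loc_const _

omit [Fintype X] in
theorem loc_chainN [Nonempty T] (l : ℕ) (Bs : List ((T → K) → Matrix X X F))
    (h : ∀ B ∈ Bs, Loc B) : Loc (fun s => chainN l (Bs.map fun B => B s)) := by
  have key : ∀ i : ℕ, Loc (fun s : T → K => (Bs.map fun B => B s).getD i 0) := by
    intro i
    by_cases hi : i < Bs.length
    · have : (fun s : T → K => (Bs.map fun B => B s).getD i 0) = Bs[i] := by
        funext s
        rw [List.getD_eq_getElem _ _ (by simpa using hi)]
        simp
      rw [this]
      exact h _ (List.getElem_mem _)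
    · have : (fun s : T → K => (Bs.map fun B => B s).getD i 0) = fun _ => 0 := by
        funext s
        rw [List.getD_eq_default _ _ (by simpa using hi)]
      rw [this]
      exact loc_const _
  refine ⟨?_, ?_⟩
  · rintro ⟨i, x⟩
    obtain ⟨v, hv⟩ := (key i.val).1 x
    refine ⟨v, fun s s' hs j => ?_⟩
    obtain ⟨j, y⟩ := j
    simp only [chainN]
    congr 1
    split_ifs with hij
    · exact hv s s' hs y
    · rfl
  · rintro ⟨j, y⟩
    obtain ⟨v, hv⟩ := (key j.val).2 y
    refine ⟨v, fun s s' hs i => ?_⟩
    obtain ⟨i, x⟩ := i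
    simp only [chainN]
    congr 1
    split_ifs with hij
    · subst hij
      exact hv s s' hs x
    · rfl

end Pool.Agent.H44.RK
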