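import Pool.Agent.H44.RK.AM

/-!
# Query lower bounds for approximating the rank of sparse matrices
-/

namespace Pool.Agent.H44.RK

open Module Matrix
open scoped ENNReal

/-- A randomised algorithm (a probability distribution on deterministic algorithms with at most
`q` queries) which, on every `n × n` matrix over `ZMod p` with at most three nonzero entries in
each row and column, outputs with probability at least `2/3` a number within `δ` of the rank. -/
def Approx (p n q : ℕ) [Fact p.Prime] (μ : PMF (Alg (Fin n) (Fin n) (ZMod p) q)) (δ : ℝ) : Prop :=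
  ∀ M : Matrix (Fin n) (Fin n) (ZMod p), Sparse 3 M →
    (2 / 3 : ℝ≥0∞) ≤ μ.toOuterMeasure {t | |t.run M - (M.rank : ℝ)| ≤ δ}

theorem Approx.mono {p n q : ℕ} [Fact p.Prime] {μ : PMF (Alg (Fin n) (Fin n) (ZMod p) q)}
    {δ δ' : ℝ} (h : Approx p n q μ δ) (hδ : δ ≤ δ') : Approx p n q μ δ' := by
  intro M hM
  refine (h M hM).trans (MeasureTheory.OuterMeasure.mono _ ?_)
  intro t ht
  exact le_trans ht hδ

theorem core (p a n q : ℕ) [hp : Fact p.Prime] (ha : 2 ≤ a) (L : ℕ) (hL : 0 < L)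
    (hn : len p a * (2 * (L * p ^ a * a)) ≤ n) (δ : ℝ)
    (hδ : 2 * δ < (L : ℝ) * p ^ (a - 2) * a) (hq : q ≤ p ^ a - p ^ (a - 1))
    (μ : PMF (Alg (Fin n) (Fin n) (ZMod p) q)) (hμ : Approx p n q μ δ) : False := by
  classical
  have ha0 : a ≠ 0 := by omega
  have : NeZero a := ⟨ha0⟩
  have : NeZero L := ⟨hL.ne'⟩
  let K := GaloisField p a
  have : Fintype K := Fintype.ofFinite K
  let b : Basis (Fin a) (ZMod p) K := Module.finBasisOfFinrankEq (ZMod p) K (GaloisField.finrank p ha0)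
  let R := Fin (len p a) × Z (Fin L) p a
  have hcard : Fintype.card R = len p a * (2 * (L * p ^ a * a)) := by
    rw [Fintype.card_prod, Fintype.card_fin, card_Z, Fintype.card_fin]
  let g : R → Fin n := fun x => Fin.castLE (hcard ▸ hn) (Fintype.equivFin R x)
  have hg : Function.Injective g := by
    intro x y h
    exact (Fintype.equivFin R).injective (Fin.castLE_injective _ h)
  have : Nonempty (Y (Fin L) p a) := ⟨(0, fun _ => 0)⟩
  have hloc := loc_pad g hg (AM b (Fin L)) (loc_AM b (Fin L))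
  refine no_alg (fun s => pad g (AM b (Fin L) s)) (fun M => (M.rank : ℝ)) (DD b (Fin L))
    (p ^ a - p ^ (a - 1)) q hq ?_ (ee (Fin L)) hloc.1 hloc.2
    ((AM b (Fin L) 0).rank : ℝ) ((L : ℝ) * p ^ (a - 2) * a) δ hδ ?_ ?_ μ ?_
  · intro S hS σ
    exact surj_DD b (Fin L) S hS σ
  · intro s hs
    simp only [rank_pad g hg]
    have h1 := rank_AM_zero b (Fin L) ha s hs
    have h2 := rank_AM_zero b (Fin L) ha 0 (DD b (Fin L)).zero_mem
    have : (AM b (Fin L) s).rank = (AM b (Fin L) 0).rank := by omega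
    rw [this]
  · intro s hs
    simp only [rank_pad g hg]
    have h1 := rank_AM_ee b (Fin L) ha s hs
    have h2 := rank_AM_zero b (Fin L) ha 0 (DD b (Fin L)).zero_mem
    rw [Fintype.card_fin] at h1
    have h3 : (AM b (Fin L) 0).rank + L * p ^ (a - 2) * a ≤ (AM b (Fin L) s).rank := by omega
    exact_mod_cast h3
  · intro s
    exact hμ _ (sparse_pad g hg 3 _ (sparse_AM b (Fin L) s))

theorem len_le (p a : ℕ) (hp : 2 ≤ p) (ha : 2 ≤ a) : len p a ≤ 5 * p * a ^ 2 := by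
  unfold len
  have h1 : p * a * 2 ≤ p * a * a := Nat.mul_le_mul_left _ ha
  have h2 : 2 * a ≤ p * a := Nat.mul_le_mul_right _ hp
  nlinarith

/-- **Main lower bound.** -/
theorem main_bound (p a n q : ℕ) [hp : Fact p.Prime] (ha : 2 ≤ a)
    (hn : 10 * p * a ^ 3 * p ^ a ≤ n)
    (μ : PMF (Alg (Fin n) (Fin n) (ZMod p) q))
    (hμ : Approx p n q μ ((n : ℝ) / (41 * p ^ 3 * a ^ 2))) : p ^ a < 2 * q := by
  by_contra hcon
  push Not at hcon
  have hp2 := hp.out.two_le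
  have hpos : 0 < p ^ a := pow_pos hp.out.pos _
  set na : ℕ := len p a * (2 * (p ^ a * a)) with hna
  have hna_le : na ≤ 10 * p * a ^ 3 * p ^ a := by
    calc na ≤ (5 * p * a ^ 2) * (2 * (p ^ a * a)) := Nat.mul_le_mul_right _ (len_le p a hp2 ha)
      _ = 10 * p * a ^ 3 * p ^ a := by ring
  have hna_pos : 0 < na := by
    rw [hna]
    have h1 : 0 < len p a := Nat.succ_pos _
    positivity
  set L : ℕ := n / na with hLdef
  have hL : 0 < L := Nat.div_pos (hna_le.trans hn) hna_pos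
  have hLn : L * na ≤ n := Nat.div_mul_le_self _ _
  have hnL : n < 2 * L * na := by
    have h1 : n < na * (L + 1) := Nat.lt_mul_div_succ n hna_pos
    have h2 : na * (L + 1) ≤ 2 * L * na := by
      have : L + 1 ≤ 2 * L := by omega
      calc na * (L + 1) ≤ na * (2 * L) := Nat.mul_le_mul_left _ this
        _ = 2 * L * na := by ring
    omega
  have hpp : p ^ a = p ^ (a - 1) * p := by
    rw [← pow_succ]; congr 1; omega
  have hpp2 : p ^ a = p ^ (a - 2) * p ^ 2 := by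
    rw [← pow_add]; congr 1; omega
  refine core p a n q ha L hL ?_ _ ?_ ?_ μ hμ
  · calc len p a * (2 * (L * p ^ a * a)) = L * na := by rw [hna]; ring
      _ ≤ n := hLn
  · have h1 : (n : ℝ) < 20 * L * p * a ^ 3 * p ^ a := by
      have h2 : n < 20 * L * p * a ^ 3 * p ^ a := by
        calc n < 2 * L * na := hnL
          _ ≤ 2 * L * (10 * p * a ^ 3 * p ^ a) := Nat.mul_le_mul_left _ hna_le
          _ = 20 * L * p * a ^ 3 * p ^ a := by ring
      exact_mod_cast h2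
    have hp0 : (0 : ℝ) < p := by exact_mod_cast hp.out.pos
    have ha0 : (0 : ℝ) < a := by
      have : 0 < a := by omega
      exact_mod_cast this
    have hden : (0 : ℝ) < 41 * p ^ 3 * a ^ 2 := by positivity
    have hppr : (p : ℝ) ^ a = (p : ℝ) ^ (a - 2) * p ^ 2 := by exact_mod_cast hpp2
    rw [hppr] at h1
    have h3 : 2 * ((n : ℝ) / (41 * p ^ 3 * a ^ 2)) = (2 * n) / (41 * p ^ 3 * a ^ 2) := by ring
    rw [h3, div_lt_iff₀ hden]
    have hLr : (0 : ℝ) < L := by exact_mod_cast hL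
    have hpow : (0 : ℝ) < (p : ℝ) ^ (a - 2) := by positivity
    have h4 : (L : ℝ) * p ^ (a - 2) * a * (41 * p ^ 3 * a ^ 2)
        = 41 * (L * p ^ (a - 2) * a ^ 3 * p ^ 3) := by ring
    have h5 : (20 : ℝ) * L * p * a ^ 3 * (p ^ (a - 2) * p ^ 2)
        = 20 * (L * p ^ (a - 2) * a ^ 3 * p ^ 3) := by ring
    rw [h4]
    rw [h5] at h1
    have h6 : (0 : ℝ) < L * p ^ (a - 2) * a ^ 3 * p ^ 3 := by positivity
    linarith
  · have h1 : p ^ (a - 1) * 2 ≤ p ^ (a - 1) * p := Nat.mul_le_mul_left _ hp2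
    omega

/-- Exponential dependence on `1 / √ε`. -/
theorem eps_bound (p : ℕ) [hp : Fact p.Prime] :
    ∃ c : ℝ, 0 < c ∧ ∀ ε : ℝ, 0 < ε → ε ≤ c → ∃ n₀ : ℕ, ∀ n : ℕ, n₀ ≤ n → ∀ (q : ℕ)
      (μ : PMF (Alg (Fin n) (Fin n) (ZMod p) q)), Approx p n q μ (ε * n) →
        (2 : ℝ) ^ (c / √ε) < q := by
  have hp0 : (0 : ℝ) < p := by exact_mod_cast hp.out.pos
  set c₁ : ℝ := 1 / (41 * p ^ 3) with hc₁
  have hc₁pos : 0 < c₁ := by positivity
  refine ⟨min (√c₁ / 2) (c₁ / 16), lt_min (by positivity) (by positivity), ?_⟩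
  intro ε hε hεc
  have hε1 : ε ≤ c₁ / 16 := hεc.trans (min_le_right _ _)
  set a : ℕ := ⌊√(c₁ / ε)⌋₊ with ha
  have hsq : (a : ℝ) ≤ √(c₁ / ε) := Nat.floor_le (Real.sqrt_nonneg _)
  have hsq4 : (4 : ℝ) ≤ √(c₁ / ε) := by
    apply Real.le_sqrt_of_sq_le
    rw [le_div_iff₀ hε]
    linarith
  have ha2 : 2 ≤ a := by
    apply Nat.le_floor
    push_cast
    linarith
  have hlt : √(c₁ / ε) < a + 1 := Nat.lt_floor_add_one _
  refine ⟨10 * p * a ^ 3 * p ^ a, ?_⟩
  intro n hn q μ hμ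
  have ha0 : (0 : ℝ) < a := by
    have : 0 < a := by omega
    exact_mod_cast this
  have hle : ε * n ≤ (n : ℝ) / (41 * p ^ 3 * a ^ 2) := by
    have h1 : (a : ℝ) ^ 2 ≤ c₁ / ε := by
      calc (a : ℝ) ^ 2 ≤ (√(c₁ / ε)) ^ 2 := by gcongr
        _ = c₁ / ε := Real.sq_sqrt (by positivity)
    have h2 : ε ≤ c₁ / a ^ 2 := by
      rw [le_div_iff₀ (by positivity)]
      rw [le_div_iff₀ hε] at h1
      linarith
    calc ε * n ≤ c₁ / a ^ 2 * n := by gcongr
      _ = (n : ℝ) / (41 * p ^ 3 * a ^ 2) := by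
        rw [hc₁]; field_simp
  have hmain := main_bound p a n q ha2 hn μ (hμ.mono hle)
  -- `2 ^ (c / √ε) ≤ 2 ^ (a - 1) ≤ p ^ a / 2`
  have hexp : min (√c₁ / 2) (c₁ / 16) / √ε ≤ ((a - 1 : ℕ) : ℝ) := by
    have h1 : min (√c₁ / 2) (c₁ / 16) / √ε ≤ (√c₁ / 2) / √ε := by
      gcongr
      exact min_le_left _ _
    have h2 : (√c₁ / 2) / √ε = √(c₁ / ε) / 2 := by
      rw [Real.sqrt_div' _ hε.le]; ring
    rw [Nat.cast_sub (by omega)]
    push_cast
    rw [h2] at h1
    linarith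
  have h3 : (2 : ℝ) ^ (min (√c₁ / 2) (c₁ / 16) / √ε) ≤ (2 : ℝ) ^ (a - 1) := by
    rw [← Real.rpow_natCast]
    exact Real.rpow_le_rpow_of_exponent_le (by norm_num) hexp
  have h4 : 2 ^ (a - 1) * 2 ≤ p ^ a := by
    calc 2 ^ (a - 1) * 2 = 2 ^ a := by rw [← pow_succ]; congr 1; omega
      _ ≤ p ^ a := Nat.pow_le_pow_left hp.out.two_le _
  have h5 : 2 ^ (a - 1) < q := by omega
  have h6 : (2 : ℝ) ^ (a - 1) < q := by exact_mod_cast h5
  linarith

/-- Almost linear lower bound for slightly subconstant relative error. -/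
theorem log_bound (p : ℕ) [hp : Fact p.Prime] :
    ∃ c : ℝ, 0 < c ∧ ∀ n : ℕ, 80 * p ^ 3 ≤ n → ∀ (q : ℕ)
      (μ : PMF (Alg (Fin n) (Fin n) (ZMod p) q)), Approx p n q μ (c * n / Real.log n ^ 2) →
        c * n / Real.log n ^ 3 < q := by
  have hp0 : (0 : ℝ) < p := by exact_mod_cast hp.out.pos
  have hlog2 : 0 < Real.log 2 := Real.log_pos (by norm_num)
  set c : ℝ := min (Real.log 2 ^ 2 / (41 * p ^ 3)) (Real.log 2 ^ 3 / (68 * p ^ 2)) with hc
  have hcpos : 0 < c := lt_min (by positivity) (by positivity)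
  refine ⟨c, hcpos, ?_⟩
  intro n hn q μ hμ
  let P : ℕ → Prop := fun a => 10 * p * a ^ 3 * p ^ a ≤ n
  have hP2 : P 2 := by
    show 10 * p * 2 ^ 3 * p ^ 2 ≤ n
    calc 10 * p * 2 ^ 3 * p ^ 2 = 80 * p ^ 3 := by ring
      _ ≤ n := hn
  have hpow : ∀ a, 1 ≤ a → P a → p ^ a ≤ n := by
    intro a ha h
    refine le_trans ?_ h
    have : 0 < 10 * p * a ^ 3 := by
      have := hp.out.pos
      positivity
    exact Nat.le_mul_of_pos_left _ this
  have h2n : 2 ≤ n := by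
    have := hpow 2 (by norm_num) hP2
    have := hp.out.two_le
    nlinarith
  set a : ℕ := Nat.findGreatest P n with hadef
  have ha2 : 2 ≤ a := Nat.le_findGreatest h2n hP2
  have hPa : P a := Nat.findGreatest_spec h2n hP2
  have hpa : p ^ a ≤ n := hpow a (by omega) hPa
  have halt : a < n := (Nat.lt_pow_self hp.out.one_lt).trans_le hpa
  have hnP : ¬ P (a + 1) := Nat.findGreatest_is_greatest (Nat.lt_succ_self a) (by omega)
  have hupper : n < 10 * p * (a + 1) ^ 3 * p ^ (a + 1) := not_le.1 hnP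
  have ha0 : (0 : ℝ) < a := by
    have : 0 < a := by omega
    exact_mod_cast this
  have hn0 : (0 : ℝ) < n := by
    have : 0 < n := by omega
    exact_mod_cast this
  have hlogn : (a : ℝ) * Real.log 2 ≤ Real.log n := by
    rw [← Real.log_pow]
    apply Real.log_le_log (by positivity)
    have h1 : 2 ^ a ≤ n := (Nat.pow_le_pow_left hp.out.two_le _).trans hpa
    exact_mod_cast h1
  have hal : 0 < (a : ℝ) * Real.log 2 := by positivity
  have hlogpos : 0 < Real.log n := lt_of_lt_of_le hal hlogn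
  have hle : c * n / Real.log n ^ 2 ≤ (n : ℝ) / (41 * p ^ 3 * a ^ 2) := by
    have h1 : c ≤ Real.log 2 ^ 2 / (41 * p ^ 3) := min_le_left _ _
    calc c * n / Real.log n ^ 2 ≤ (Real.log 2 ^ 2 / (41 * p ^ 3)) * n / (a * Real.log 2) ^ 2 := by
          gcongr
      _ = (n : ℝ) / (41 * p ^ 3 * a ^ 2) := by
        field_simp
  have hmain := main_bound p a n q ha2 hPa μ (hμ.mono hle)
  have hmain' : (p : ℝ) ^ a < 2 * q := by exact_mod_cast hmain
  have hupper' : (n : ℝ) < 10 * p * (a + 1) ^ 3 * p ^ (a + 1) := by exact_mod_cast hupper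
  have ha15 : (a : ℝ) + 1 ≤ 3 / 2 * a := by
    have : (2 : ℝ) ≤ a := by exact_mod_cast ha2
    linarith
  have hcube : ((a : ℝ) + 1) ^ 3 ≤ 27 / 8 * (a : ℝ) ^ 3 := by
    calc ((a : ℝ) + 1) ^ 3 ≤ (3 / 2 * (a : ℝ)) ^ 3 := by gcongr
      _ = 27 / 8 * (a : ℝ) ^ 3 := by ring
  have h7 : (n : ℝ) < 68 * p ^ 2 * a ^ 3 * q := by
    calc (n : ℝ) < 10 * p * (a + 1) ^ 3 * p ^ (a + 1) := hupper'
      _ = 10 * p ^ 2 * (a + 1) ^ 3 * p ^ a := by ring
      _ ≤ 10 * p ^ 2 * (27 / 8 * (a : ℝ) ^ 3) * (2 * q) := by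
        gcongr
      _ = 67.5 * p ^ 2 * a ^ 3 * q := by ring
      _ ≤ 68 * p ^ 2 * a ^ 3 * q := by gcongr; norm_num
  have h8 : c ≤ Real.log 2 ^ 3 / (68 * p ^ 2) := min_le_right _ _
  calc c * n / Real.log n ^ 3
      ≤ (Real.log 2 ^ 3 / (68 * p ^ 2)) * n / (a * Real.log 2) ^ 3 := by gcongr
    _ < (Real.log 2 ^ 3 / (68 * p ^ 2)) * (68 * p ^ 2 * a ^ 3 * q) / (a * Real.log 2) ^ 3 := by
        gcongr
    _ = q := by field_simp

end Pool.Agent.H44.RK
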