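import Mathlib

/-!
# Query algorithms on matrices and the hiding lemma
-/

namespace Pool.Agent.H44.RK

open scoped ENNReal

/-- A deterministic adaptive algorithm which reads a matrix with rows indexed by `R`, columns
indexed by `C` and entries in `F`, makes at most `q` queries and outputs a real number.  A row
query on `i` returns the whole row `i` (positions and values of its nonzero entries), a column
query on `j` returns the whole column `j`; the next query may depend on all previous answers. -/
inductive Alg (R C F : Type) : ℕ → Type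
  | out {q : ℕ} (r : ℝ) : Alg R C F q
  | row {q : ℕ} (i : R) (k : (C → F) → Alg R C F q) : Alg R C F (q + 1)
  | col {q : ℕ} (j : C) (k : (R → F) → Alg R C F q) : Alg R C F (q + 1)

/-- The output of a deterministic algorithm on a matrix. -/
def Alg.run {R C F : Type} : {q : ℕ} → Alg R C F q → Matrix R C F → ℝ
  | _, .out r, _ => r
  | _, .row i k, M => (k (fun j => M i j)).run M
  | _, .col j k, M => (k (fun i => M i j)).run M

section Hiding

variable {R C F T K : Type} [Fintype T] [DecidableEq T] [Fintype K] [DecidableEq K] [AddCommGroup K]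

/-- Agreement on a finite set of coordinates. -/
def Agree (S : Finset T) (σ s : T → K) : Prop := ∀ v ∈ S, s v = σ v

/-- The number of functions in the coset `e + D` which agree with `σ` on `S` and satisfy `P`. -/
noncomputable def cnt (D : AddSubgroup (T → K)) (e : T → K) (S : Finset T) (σ : T → K)
    (P : (T → K) → Prop) : ℕ := by
  classical
  exact (Finset.univ.filter fun s : T → K => s - e ∈ D ∧ Agree S σ s ∧ P s).card

/-- Every assignment on at most `d` coordinates extends to an element of `D`. -/
def Surj (D : AddSubgroup (T → K)) (d : ℕ) : Prop :=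
  ∀ S : Finset T, S.card ≤ d → ∀ σ : T → K, ∃ s ∈ D, ∀ v ∈ S, s v = σ v

theorem cnt_const (D : AddSubgroup (T → K)) (d : ℕ) (hD : Surj D d) (e : T → K) (S : Finset T)
    (hS : S.card ≤ d) (σ : T → K) : cnt D 0 S σ (fun _ => True) = cnt D e S σ (fun _ => True) := by
  classical
  obtain ⟨δ, hδ, hδS⟩ := hD S hS e
  unfold cnt
  refine Finset.card_bij (fun s _ => s + (e - δ)) ?_ ?_ ?_
  · intro s hs
    simp only [Finset.mem_filter, Finset.mem_univ, true_and, and_true, sub_zero] at hs ⊢
    refine ⟨?_, ?_⟩
    · have : s + (e - δ) - e = s - δ := by abel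
      rw [this]
      exact D.sub_mem hs.1 hδ
    · intro v hv
      simp only [Pi.add_apply, Pi.sub_apply, hδS v hv, sub_self, add_zero]
      exact hs.2 v hv
  · intro s _ s' _ h
    exact add_right_cancel h
  · intro s hs
    simp only [Finset.mem_filter, Finset.mem_univ, true_and, and_true, sub_zero] at hs ⊢
    refine ⟨s - (e - δ), ⟨?_, ?_⟩, by abel⟩
    · have : s - (e - δ) = (s - e) + δ := by abel
      rw [this]
      exact D.add_mem hs.1 hδ
    · intro v hv
      simp only [Pi.sub_apply, hδS v hv, sub_self, sub_zero]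
      exact hs.2 v hv

theorem cnt_split (D : AddSubgroup (T → K)) (e : T → K) (S : Finset T) (σ : T → K)
    (P : (T → K) → Prop) (v : T) :
    cnt D e S σ P = ∑ κ : K, cnt D e S σ (fun s => s v = κ ∧ P s) := by
  classical
  unfold cnt
  rw [Finset.card_eq_sum_card_fiberwise (f := fun s => s v) (t := Finset.univ)
    (fun _ _ => Finset.mem_univ _)]
  refine Finset.sum_congr rfl fun κ _ => ?_
  congr 1
  ext s
  simp only [Finset.mem_filter, Finset.mem_univ, true_and]
  tauto

theorem cnt_congr (D : AddSubgroup (T → K)) (e : T → K) (S S' : Finset T) (σ σ' : T → K)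
    (P P' : (T → K) → Prop) (h : ∀ s, (Agree S σ s ∧ P s) ↔ (Agree S' σ' s ∧ P' s)) :
    cnt D e S σ P = cnt D e S' σ' P' := by
  classical
  unfold cnt
  congr 1
  ext s
  simp only [Finset.mem_filter, Finset.mem_univ, true_and, h]

theorem cnt_eq_zero (D : AddSubgroup (T → K)) (e : T → K) (S : Finset T) (σ : T → K)
    (P : (T → K) → Prop) (h : ∀ s, Agree S σ s → ¬ P s) : cnt D e S σ P = 0 := by
  classical
  unfold cnt
  rw [Finset.card_eq_zero, Finset.filter_eq_empty_iff]
  rintro s - ⟨-, h1, h2⟩
  exact h s h1 h2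

/-- **Hiding lemma.**  If every query reveals at most one coordinate of `s` and every assignment
on `d` coordinates extends to `D`, then an algorithm with at most `d` queries has the same output
distribution on `D` and on any coset of `D`. -/
theorem hide (A : (T → K) → Matrix R C F) (D : AddSubgroup (T → K)) (d : ℕ) (hD : Surj D d)
    (e : T → K)
    (hrow : ∀ i, ∃ v : T, ∀ s s' : T → K, s v = s' v → ∀ j, A s i j = A s' i j)
    (hcol : ∀ j, ∃ v : T, ∀ s s' : T → K, s v = s' v → ∀ i, A s i j = A s' i j) (O : Set ℝ) :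
    ∀ {q : ℕ} (t : Alg R C F q) (S : Finset T) (σ : T → K), S.card + q ≤ d →
      cnt D 0 S σ (fun s => t.run (A s) ∈ O) = cnt D e S σ (fun s => t.run (A s) ∈ O) := by
  classical
  -- the common inductive step
  have step : ∀ {q : ℕ} (v : T) (k : K → Alg R C F q)
      (_ : ∀ (κ : K) (S : Finset T) (σ : T → K), S.card + q ≤ d →
        cnt D 0 S σ (fun s => (k κ).run (A s) ∈ O) = cnt D e S σ (fun s => (k κ).run (A s) ∈ O))
      (S : Finset T) (σ : T → K), S.card + (q + 1) ≤ d →
      cnt D 0 S σ (fun s => (k (s v)).run (A s) ∈ O)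
        = cnt D e S σ (fun s => (k (s v)).run (A s) ∈ O) := by
    intro q v k ih S σ hS
    rw [cnt_split D 0 S σ _ v, cnt_split D e S σ _ v]
    refine Finset.sum_congr rfl fun κ _ => ?_
    by_cases hv : v ∈ S ∧ σ v ≠ κ
    · have h0 : ∀ e' : T → K, cnt D e' S σ (fun s => s v = κ ∧ (k (s v)).run (A s) ∈ O) = 0 := by
        intro e'
        refine cnt_eq_zero _ _ _ _ _ ?_
        rintro s hag ⟨hκ, -⟩
        exact hv.2 ((hag v hv.1).symm.trans hκ)
      rw [h0, h0]
    · have key : ∀ s : T → K, (Agree S σ s ∧ (s v = κ ∧ (k (s v)).run (A s) ∈ O)) ↔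
          (Agree (insert v S) (Function.update σ v κ) s ∧ (k κ).run (A s) ∈ O) := by
        intro s
        constructor
        · rintro ⟨hag, hκ, hO⟩
          refine ⟨?_, ?_⟩
          · intro w hw
            by_cases hwv : w = v
            · subst hwv; simpa using hκ
            · rw [Function.update_of_ne hwv]
              exact hag w ((Finset.mem_insert.1 hw).resolve_left hwv)
          · rw [hκ] at hO; exact hO
        · rintro ⟨hag, hO⟩
          have hκ : s v = κ := by
            have := hag v (Finset.mem_insert_self _ _)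
            simpa using this
          refine ⟨?_, hκ, ?_⟩
          · intro w hw
            by_cases hwv : w = v
            · subst hwv
              rw [hκ]
              by_contra hne
              exact hv ⟨hw, fun h => hne h.symm⟩
            · have := hag w (Finset.mem_insert_of_mem hw)
              rwa [Function.update_of_ne hwv] at this
          · rw [hκ]; exact hO
      rw [cnt_congr D 0 _ _ _ _ _ _ key, cnt_congr D e _ _ _ _ _ _ key]
      refine ih κ _ _ ?_
      have := Finset.card_insert_le v S
      omega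
  intro q t
  induction t with
  | @out q r =>
    intro S σ hS
    by_cases hr : r ∈ O
    · have h1 : ∀ e' : T → K, cnt D e' S σ (fun s => (Alg.out (q := q) r : Alg R C F q).run (A s) ∈ O)
          = cnt D e' S σ (fun _ => True) := by
        intro e'
        apply cnt_congr
        intro s
        simp [Alg.run, hr]
      rw [h1, h1]
      exact cnt_const D d hD e S (by omega) σ
    · have h1 : ∀ e' : T → K, cnt D e' S σ (fun s => (Alg.out (q := q) r : Alg R C F q).run (A s) ∈ O)
          = 0 := by
        intro e'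
        refine cnt_eq_zero _ _ _ _ _ ?_
        intro s _ h
        exact hr (by simpa [Alg.run] using h)
      rw [h1, h1]
  | @row q i k ih =>
    intro S σ hS
    obtain ⟨v, hv⟩ := hrow i
    have hrun : ∀ s : T → K, (Alg.row i k : Alg R C F (q+1)).run (A s)
        = (k (fun j => A (fun _ => s v) i j)).run (A s) := by
      intro s
      simp only [Alg.run]
      congr 2
      funext j
      exact hv s (fun _ => s v) rfl j
    simp only [hrun]
    exact step v (fun κ => k (fun j => A (fun _ => κ) i j))
      (fun κ S σ h => ih _ S σ h) S σ hS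
  | @col q j k ih =>
    intro S σ hS
    obtain ⟨v, hv⟩ := hcol j
    have hrun : ∀ s : T → K, (Alg.col j k : Alg R C F (q+1)).run (A s)
        = (k (fun i => A (fun _ => s v) i j)).run (A s) := by
      intro s
      simp only [Alg.run]
      congr 2
      funext i
      exact hv s (fun _ => s v) rfl i
    simp only [hrun]
    exact step v (fun κ => k (fun i => A (fun _ => κ) i j))
      (fun κ S σ h => ih _ S σ h) S σ hS

/-- Sum over a finite set of inputs of the probability that a random algorithm satisfies a
property. -/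
theorem sum_prob {Ω : Type} (μ : PMF Ω) {I : Type} (U : Finset I) (P : I → Ω → Prop)
    [∀ i ω, Decidable (P i ω)] :
    ∑ i ∈ U, μ.toOuterMeasure {ω | P i ω}
      = ∑' ω, μ ω * ((U.filter fun i => P i ω).card : ℝ≥0∞) := by
  classical
  simp only [PMF.toOuterMeasure_apply]
  rw [← Summable.tsum_finsetSum (fun _ _ => ENNReal.summable)]
  refine tsum_congr fun ω => ?_
  simp only [Set.indicator_apply, Set.mem_setOf_eq]
  rw [← Finset.sum_filter, Finset.sum_const, nsmul_eq_mul, mul_comm]

/-- **Indistinguishability implies failure.**  No randomised algorithm with `q ≤ d` queries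
distinguishes the ranks on `D` and on the coset `e + D`. -/
theorem no_alg (A : (T → K) → Matrix R C F) (rk : Matrix R C F → ℝ)
    (D : AddSubgroup (T → K)) (d q : ℕ) (hq : q ≤ d) (hD : Surj D d) (e : T → K)
    (hrow : ∀ i, ∃ v : T, ∀ s s' : T → K, s v = s' v → ∀ j, A s i j = A s' i j)
    (hcol : ∀ j, ∃ v : T, ∀ s s' : T → K, s v = s' v → ∀ i, A s i j = A s' i j)
    (r₀ g δ : ℝ) (hg : 2 * δ < g)
    (h0 : ∀ s, s ∈ D → rk (A s) = r₀) (h1 : ∀ s, s - e ∈ D → r₀ + g ≤ rk (A s))
    (μ : PMF (Alg R C F q))
    (hμ : ∀ s, (2 / 3 : ℝ≥0∞) ≤ μ.toOuterMeasure {t | |t.run (A s) - rk (A s)| ≤ δ}) : False := by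
  classical
  set O : Set ℝ := {x | x ≤ r₀ + δ} with hO
  set U0 : Finset (T → K) := Finset.univ.filter fun s => s - 0 ∈ D with hU0
  set U1 : Finset (T → K) := Finset.univ.filter fun s => s - e ∈ D with hU1
  have hcard : U0.card = U1.card := by
    have := cnt_const D d hD e ∅ (by simp) (fun _ => 0)
    simpa [cnt, Agree, hU0, hU1] using this
  have hpos : 0 < U0.card := Finset.card_pos.2 ⟨0, by simp [hU0, D.zero_mem]⟩
  -- lower bounds on the success
  have hs0 : (2 / 3 : ℝ≥0∞) * U0.card ≤ ∑ s ∈ U0, μ.toOuterMeasure {t | t.run (A s) ∈ O} := by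
    rw [mul_comm, ← nsmul_eq_mul, ← Finset.sum_const]
    refine Finset.sum_le_sum fun s hs => (hμ s).trans (MeasureTheory.OuterMeasure.mono _ ?_)
    intro t ht
    have hr := h0 s (by simpa [hU0] using hs)
    simp only [Set.mem_setOf_eq, hr, hO] at ht ⊢
    have := (abs_le.1 ht).2
    linarith
  have hs1 : (2 / 3 : ℝ≥0∞) * U1.card ≤ ∑ s ∈ U1, μ.toOuterMeasure {t | ¬ t.run (A s) ∈ O} := by
    rw [mul_comm, ← nsmul_eq_mul, ← Finset.sum_const]
    refine Finset.sum_le_sum fun s hs => (hμ s).trans (MeasureTheory.OuterMeasure.mono _ ?_)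
    intro t ht
    have hr := h1 s (by simpa [hU1] using hs)
    simp only [Set.mem_setOf_eq, hO, not_le] at ht ⊢
    have := (abs_le.1 ht).1
    linarith
  rw [sum_prob μ U0 (fun s t => t.run (A s) ∈ O)] at hs0
  rw [sum_prob μ U1 (fun s t => ¬ t.run (A s) ∈ O)] at hs1
  have hhide : ∀ t : Alg R C F q, (U0.filter fun s => t.run (A s) ∈ O).card
      = (U1.filter fun s => t.run (A s) ∈ O).card := by
    intro t
    have := hide A D d hD e hrow hcol O t ∅ (fun _ => 0) (by simpa using hq)
    unfold cnt at this
    simp only [Agree, Finset.notMem_empty, false_implies, implies_true, true_and] at this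
    simpa [hU0, hU1, Finset.filter_filter] using this
  have hsum : (2 / 3 : ℝ≥0∞) * U0.card + (2 / 3 : ℝ≥0∞) * U1.card ≤ (U1.card : ℝ≥0∞) := by
    refine (add_le_add hs0 hs1).trans ?_
    rw [← ENNReal.tsum_add]
    have : ∀ t : Alg R C F q, μ t * ((U0.filter fun s => t.run (A s) ∈ O).card : ℝ≥0∞)
        + μ t * ((U1.filter fun s => ¬ t.run (A s) ∈ O).card : ℝ≥0∞) = μ t * (U1.card : ℝ≥0∞) := by
      intro t
      rw [hhide t, ← mul_add, ← Nat.cast_add, Finset.card_filter_add_card_filter_not]
    rw [tsum_congr this, ENNReal.tsum_mul_right, μ.tsum_coe, one_mul]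
  rw [hcard, ← add_mul] at hsum
  have h43 : (2 / 3 : ℝ≥0∞) + 2 / 3 = 4 / 3 := by
    rw [ENNReal.div_add_div_same]; norm_num
  rw [h43] at hsum
  have hpos' : 0 < U1.card := hcard ▸ hpos
  have hne : (U1.card : ℝ≥0∞) ≠ 0 := by
    simpa using hpos'.ne'
  have hnt : (U1.card : ℝ≥0∞) ≠ ⊤ := ENNReal.natCast_ne_top _
  have : (4 / 3 : ℝ≥0∞) ≤ 1 := by
    have h := hsum
    nth_rw 2 [← one_mul (U1.card : ℝ≥0∞)] at h
    exact (ENNReal.mul_le_mul_iff_left hne hnt).1 h
  have h3 : (4 : ℝ≥0∞) ≤ 3 := by
    have := (ENNReal.div_le_iff (by norm_num) (by norm_num)).1 this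
    simpa using this
  exact absurd h3 (by norm_num)

end Hiding

end Pool.Agent.H44.RK
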