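import Pool.Agent.H44.RK.Assemble
import Pool.Agent.H44.RK.Model

/-!
# The hard family: ranks and hiding
-/

namespace Pool.Agent.H44.RK

open Polynomial Module Matrix

variable {p : ℕ} [hp : Fact p.Prime] {K : Type} [Field K] [Algebra (ZMod p) K] {a : ℕ}
  (b : Basis (Fin a) (ZMod p) K) (Λ : Type) [Fintype Λ] [DecidableEq Λ]

/-- The `K`-linear core of the construction. -/
noncomputable def BK (s : Y Λ p a → K) : Matrix (Y Λ p a) (Y Λ p a) K :=
  kr Λ P0 * (kr Λ (Gm b 0))ᵀ * Matrix.diagonal s * kr Λ (Gm b 0) * kr Λ P0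

theorem BK_add (s s' : Y Λ p a → K) : BK b Λ (s + s') = BK b Λ s + BK b Λ s' := by
  have h : Matrix.diagonal (s + s') = Matrix.diagonal s + Matrix.diagonal s' :=
    (Matrix.diagonal_add s s').symm
  unfold BK
  rw [h]
  simp only [Matrix.mul_add, Matrix.add_mul]

/-- The dual of the product code, in every copy. -/
def DD : AddSubgroup (Y Λ p a → K) where
  carrier := {s | ∀ (l : Λ) (h : K[X]), h.natDegree < p ^ (a - 1) →
    ∑ y : Fin a → ZMod p, s (l, y) * h.eval (pt b y) = 0}
  zero_mem' := by intro l h _; simp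
  add_mem' := by
    intro s s' hs hs' l h hh
    simp only [Pi.add_apply, add_mul, Finset.sum_add_distrib]
    rw [hs l h hh, hs' l h hh, add_zero]
  neg_mem' := by
    intro s hs l h hh
    simp only [Pi.neg_apply, neg_mul, Finset.sum_neg_distrib]
    rw [hs l h hh, neg_zero]

theorem BK_eq_zero [CharP K p] (ha : 2 ≤ a) (s : Y Λ p a → K) (hs : s ∈ DD b Λ) :
    BK b Λ s = 0 := by
  classical
  ext ⟨l, z⟩ ⟨l', z'⟩
  unfold BK
  rw [kr_P0, Matrix.mul_diagonal, Matrix.mul_assoc, Matrix.mul_assoc, Matrix.diagonal_mul]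
  by_cases hz : Low z
  · by_cases hz' : Low z'
    · have key : ((kr Λ (Gm b 0))ᵀ * (Matrix.diagonal s * kr Λ (Gm b 0))) (l, z) (l', z') = 0 := by
        rw [Matrix.mul_apply]
        simp only [Matrix.transpose_apply, Matrix.diagonal_mul, kr_apply, Fintype.sum_prod_type]
        by_cases hl : l = l'
        · subst hl
          rw [Finset.sum_eq_single l]
          · have hdeg : (Xz b z * Xz b z').natDegree < p ^ (a - 1) := by
              refine natDegree_mul_le.trans_lt ?_
              rw [Xz_natDegree, Xz_natDegree]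
              have h1 := num_lt z (a - 2) hz
              have h2 := num_lt z' (a - 2) hz'
              have h3 : p ^ (a - 1) = p ^ (a - 2) * p := by
                rw [← pow_succ]; congr 1; omega
              have h4 : p ^ (a - 2) * 2 ≤ p ^ (a - 2) * p := Nat.mul_le_mul_left _ hp.out.two_le
              omega
            have := hs l _ hdeg
            rw [← this]
            refine Finset.sum_congr rfl fun y _ => ?_
            simp only [if_true, Gm_zero, eval_mul]
            ring
          · intro m _ hm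
            refine Finset.sum_eq_zero fun y _ => ?_
            simp [hm]
          · simp
        · refine Finset.sum_eq_zero fun m _ => Finset.sum_eq_zero fun y _ => ?_
          by_cases h1 : m = l
          · subst h1; simp [hl]
          · simp [h1]
      rw [key]
      simp
    · simp [hz']
  · simp [hz]

/-- The indicator function of the low points. -/
noncomputable def ee : Y Λ p a → K := fun y => if Low y.2 then 1 else 0

theorem BK_ee [CharP K p] (ha : 2 ≤ a) :
    ∃ U V : Matrix (Y Λ p a) (Y Λ p a) K,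
      U * BK b Λ (ee Λ) * V = Matrix.diagonal fun y => if Low y.2 then (1 : K) else 0 := by
  classical
  obtain ⟨R, hR⟩ := exists_right_inv (p := p) b ha
  refine ⟨kr Λ Rᵀ, kr Λ R, ?_⟩
  have hP : (P0 : Matrix (Fin a → ZMod p) (Fin a → ZMod p) K) * P0 = P0 := by
    unfold P0
    rw [Matrix.diagonal_mul_diagonal]
    congr 1
    funext y
    split_ifs <;> simp
  have hPT : (P0 : Matrix (Fin a → ZMod p) (Fin a → ZMod p) K)ᵀ = P0 := by
    unfold P0
    exact Matrix.diagonal_transpose _
  have hd : Matrix.diagonal (ee Λ : Y Λ p a → K) = kr Λ P0 := by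
    rw [kr_P0]; rfl
  rw [← kr_P0]
  unfold BK
  rw [hd, kr_transpose]
  simp only [← kr_mul]
  congr 1
  have e1 : P0 * (Gm b 0)ᵀ * P0 * Gm b 0 * P0 = (P0 * Gm b 0 * P0)ᵀ * (P0 * Gm b 0 * P0) := by
    rw [Matrix.transpose_mul, Matrix.transpose_mul, hPT]
    have : P0 * ((Gm b 0)ᵀ * P0) * (P0 * Gm b 0 * P0)
        = P0 * (Gm b 0)ᵀ * (P0 * P0) * Gm b 0 * P0 := by
      simp only [Matrix.mul_assoc]
    rw [this, hP]
  rw [e1]
  have e2 : Rᵀ * ((P0 * Gm b 0 * P0)ᵀ * (P0 * Gm b 0 * P0)) * R
      = ((P0 * Gm b 0 * P0) * R)ᵀ * ((P0 * Gm b 0 * P0) * R) := by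
    rw [Matrix.transpose_mul (P0 * Gm b 0 * P0) R]
    simp only [Matrix.mul_assoc]
  rw [e2, hR, hPT, hP]

/-- Every assignment on few coordinates extends to an element of `DD`. -/
theorem surj_DD (T : Finset (Y Λ p a)) (hT : T.card ≤ p ^ a - p ^ (a - 1))
    (σ : Y Λ p a → K) : ∃ s ∈ DD b Λ, ∀ v ∈ T, s v = σ v := by
  classical
  have hS : ∀ l : Λ, ∃ S : Finset (Fin a → ZMod p), (∀ y ∈ S, (l, y) ∉ T) ∧
      S.card = p ^ (a - 1) := by
    intro l
    set Tl : Finset (Fin a → ZMod p) := Finset.univ.filter fun y => (l, y) ∈ T with hTl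
    have h1 : Tl.card ≤ T.card := by
      refine Finset.card_le_card_of_injOn (fun y => (l, y)) ?_ ?_
      · intro y hy
        simpa [hTl] using hy
      · intro y _ y' _ h
        exact (Prod.mk.inj h).2
    have h2 : p ^ (a - 1) ≤ Tlᶜ.card := by
      rw [Finset.card_compl]
      have : Fintype.card (Fin a → ZMod p) = p ^ a := by simp [ZMod.card]
      rw [this]
      have : p ^ (a - 1) ≤ p ^ a := Nat.pow_le_pow_right hp.out.pos (Nat.sub_le _ _)
      omega
    obtain ⟨S, hSsub, hScard⟩ := Finset.exists_subset_card_eq h2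
    refine ⟨S, fun y hy hmem => ?_, hScard⟩
    have := hSsub hy
    simp [hTl, hmem] at this
  choose S hSn hSc using hS
  refine ⟨fun q => if q ∈ T then σ q else if q.2 ∈ S q.1 then
    - ∑ v ∈ Finset.univ.filter (fun v => (q.1, v) ∈ T), σ (q.1, v) *
      (Lagrange.basis (S q.1) (pt b) q.2).eval (pt b v) else 0, ?_, ?_⟩
  · intro l h hh
    set Tl : Finset (Fin a → ZMod p) := Finset.univ.filter fun y => (l, y) ∈ T with hTl
    have hinterp : ∀ x : K, h.eval x = ∑ u ∈ S l, h.eval (pt b u) *
        (Lagrange.basis (S l) (pt b) u).eval x := by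
      intro x
      have hd : h.degree < (S l).card := by
        rw [hSc l]
        refine (degree_le_natDegree).trans_lt ?_
        exact_mod_cast hh
      have := Lagrange.eq_interpolate (s := S l) (v := pt b) ((pt_injective b).injOn) hd
      conv_lhs => rw [this]
      rw [Lagrange.interpolate_apply, eval_finsetSum]
      refine Finset.sum_congr rfl fun u _ => ?_
      rw [eval_mul, eval_C]
    have hsplit : ∀ y : Fin a → ZMod p, (if (l, y) ∈ T then σ (l, y) else if y ∈ S l then
        - ∑ v ∈ Tl, σ (l, v) * (Lagrange.basis (S l) (pt b) y).eval (pt b v) else 0)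
        * h.eval (pt b y)
        = (if y ∈ Tl then σ (l, y) * h.eval (pt b y) else 0) +
          (if y ∈ S l then (- ∑ v ∈ Tl, σ (l, v) *
            (Lagrange.basis (S l) (pt b) y).eval (pt b v)) * h.eval (pt b y) else 0) := by
      intro y
      by_cases h1 : (l, y) ∈ T
      · have h2 : y ∉ S l := fun h' => hSn l y h' h1
        have h3 : y ∈ Tl := by simp [hTl, h1]
        simp [h1, h2, h3]
      · have h3 : y ∉ Tl := by simp [hTl, h1]
        by_cases h2 : y ∈ S l
        · simp [h1, h2, h3]
        · simp [h1, h2, h3]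
    simp only
    rw [Finset.sum_congr rfl (fun y _ => hsplit y), Finset.sum_add_distrib]
    rw [Finset.sum_ite_mem, Finset.sum_ite_mem, Finset.univ_inter, Finset.univ_inter]
    have h5 : ∑ x ∈ S l, (-∑ v ∈ Tl, σ (l, v) *
        (Lagrange.basis (S l) (pt b) x).eval (pt b v)) * h.eval (pt b x)
        = - ∑ v ∈ Tl, σ (l, v) * h.eval (pt b v) := by
      simp only [neg_mul, Finset.sum_neg_distrib, neg_inj, Finset.sum_mul]
      rw [Finset.sum_comm]
      refine Finset.sum_congr rfl fun v _ => ?_
      rw [hinterp (pt b v), Finset.mul_sum]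
      refine Finset.sum_congr rfl fun u _ => ?_
      ring
    rw [h5]
    ring
  · intro v hv
    simp [hv]

end Pool.Agent.H44.RK
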