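import Mathlib

/-!
# Subspace polynomials and the polynomials behind the additive fast Fourier transform
-/

namespace Pool.Agent.H44.RK

open Polynomial Module

section Sub

variable {p : ℕ} [hp : Fact p.Prime] {K : Type} [Field K] [CharP K p]

/-- Subspace polynomials. -/
noncomputable def sp (p : ℕ) (β : ℕ → K) : ℕ → K[X]
  | 0 => X
  | i + 1 => (sp p β i) ^ p - C (((sp p β i).eval (β i)) ^ (p - 1)) * sp p β i

theorem sp_monic_deg (β : ℕ → K) (i : ℕ) :
    (sp p β i).Monic ∧ (sp p β i).natDegree = p ^ i := by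
  induction i with
  | zero => simp [sp, monic_X]
  | succ i ih =>
    obtain ⟨hm, hd⟩ := ih
    have hp1 := hp.out.one_lt
    have hpow : ((sp p β i) ^ p).Monic := hm.pow p
    have hdp : ((sp p β i) ^ p).natDegree = p ^ (i + 1) := by
      rw [hm.natDegree_pow, hd, pow_succ, mul_comm]
    have hlt : (C (((sp p β i).eval (β i)) ^ (p - 1)) * sp p β i).natDegree
        < ((sp p β i) ^ p).natDegree := by
      rw [hdp]
      refine (natDegree_C_mul_le _ _).trans_lt ?_
      rw [hd]
      exact Nat.pow_lt_pow_right hp1 (Nat.lt_succ_self i)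
    refine ⟨?_, ?_⟩
    · rw [sp]
      exact hpow.sub_of_left (degree_lt_degree hlt)
    · rw [sp, natDegree_sub_eq_left_of_natDegree_lt hlt, hdp]

theorem sp_add (β : ℕ → K) (i : ℕ) (x y : K) :
    (sp p β i).eval (x + y) = (sp p β i).eval x + (sp p β i).eval y := by
  induction i with
  | zero => simp [sp]
  | succ i ih =>
    simp only [sp, eval_sub, eval_pow, eval_mul, eval_C, ih]
    rw [add_pow_char]
    ring

/-- Evaluation of a subspace polynomial as a linear map. -/
noncomputable def spL [Algebra (ZMod p) K] (β : ℕ → K) (i : ℕ) : K →ₗ[ZMod p] K :=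
  (AddMonoidHom.mk' (fun x => (sp p β i).eval x) (sp_add β i)).toZModLinearMap p

theorem spL_apply [Algebra (ZMod p) K] (β : ℕ → K) (i : ℕ) (x : K) :
    spL β i x = (sp p β i).eval x := rfl

theorem sp_zero (β : ℕ → K) (i j : ℕ) (h : j < i) : (sp p β i).eval (β j) = 0 := by
  induction i with
  | zero => omega
  | succ i ih =>
    simp only [sp, eval_sub, eval_pow, eval_mul, eval_C]
    rcases Nat.lt_succ_iff_lt_or_eq.1 h with h | h
    · rw [ih h, zero_pow hp.out.ne_zero]; ring
    · subst h
      rw [← pow_succ, Nat.sub_add_cancel hp.out.one_lt.le, sub_self]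

end Sub

section Basis

variable {p : ℕ} [hp : Fact p.Prime] {K : Type} [Field K] [Algebra (ZMod p) K] {a : ℕ}
  (b : Basis (Fin a) (ZMod p) K)

/-- The basis as a sequence. -/
noncomputable def bs (i : ℕ) : K := if h : i < a then b ⟨i, h⟩ else 0

theorem bs_fin (i : Fin a) : bs b i.val = b i := by simp [bs]

/-- The points of `K` in coordinates. -/
noncomputable def pt (y : Fin a → ZMod p) : K := b.equivFun.symm y

theorem pt_injective : Function.Injective (pt b) := b.equivFun.symm.injective

theorem pt_eq (y : Fin a → ZMod p) : pt b y = ∑ i, y i • b i := by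
  rw [pt, Basis.equivFun_symm_apply]

theorem spL_pt [CharP K p] (i : ℕ) (y : Fin a → ZMod p) :
    spL (bs b) i (pt b y) = ∑ j, y j • spL (bs b) i (b j) := by
  rw [pt_eq, map_sum]
  simp [map_smul]

theorem sp_ne_zero [CharP K p] (i : Fin a) : (sp p (bs b) i.val).eval (b i) ≠ 0 := by
  classical
  intro h0
  have hd := (sp_monic_deg (p := p) (bs b) i.val).2
  have hne : sp p (bs b) i.val ≠ 0 := (sp_monic_deg (p := p) (bs b) i.val).1.ne_zero
  -- extension of a short vector
  let ex : (Fin (i.val + 1) → ZMod p) → (Fin a → ZMod p) := fun y j =>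
    if h : j.val < i.val + 1 then y ⟨j.val, h⟩ else 0
  have hex : Function.Injective ex := by
    intro y y' h
    funext j
    have hj : j.val < a := by have := j.2; have := i.2; omega
    have := congrFun h ⟨j.val, hj⟩
    simp only [ex] at this
    rw [dif_pos j.2, dif_pos j.2] at this
    exact this
  let Z : Finset K := Finset.univ.image fun y => pt b (ex y)
  have hZ : Z.card = p ^ (i.val + 1) := by
    change (Finset.image (pt b ∘ ex) Finset.univ).card = _
    rw [Finset.card_image_of_injective _ ((pt_injective b).comp hex)]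
    simp [ZMod.card]
  have hroots : Z.val ⊆ (sp p (bs b) i.val).roots := by
    intro x hx
    simp only [Z, Finset.image_val, Multiset.mem_dedup, Multiset.mem_map] at hx
    obtain ⟨y, -, rfl⟩ := hx
    rw [mem_roots hne, IsRoot.def, ← spL_apply, spL_pt]
    refine Finset.sum_eq_zero fun j _ => ?_
    by_cases hj : j.val < i.val + 1
    · have : spL (bs b) i.val (b j) = 0 := by
        rw [spL_apply]
        rcases Nat.lt_succ_iff_lt_or_eq.1 hj with h | h
        · rw [← bs_fin b j]; exact sp_zero _ _ _ h
        · have : j = i := Fin.ext h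
          rw [this]; exact h0
      rw [this, smul_zero]
    · have : ex y j = 0 := dif_neg hj
      rw [this, zero_smul]
  have := card_le_degree_of_subset_roots hroots
  rw [hZ, hd] at this
  exact absurd this (not_le.2 (Nat.pow_lt_pow_right hp.out.one_lt (Nat.lt_succ_self _)))

/-- The twiddle factors. -/
noncomputable def cf (i : Fin a) (y : Fin a → ZMod p) : K :=
  (sp p (bs b) i.val).eval (pt b y) / (sp p (bs b) i.val).eval (b i)

theorem cf_update [CharP K p] (i l : Fin a) (h : i < l) (y : Fin a → ZMod p) (e : ZMod p) :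
    cf b l (Function.update y i e) = cf b l y := by
  unfold cf
  congr 1
  rw [← spL_apply, ← spL_apply, spL_pt, spL_pt]
  refine Finset.sum_congr rfl fun j _ => ?_
  by_cases hj : j = i
  · subst hj
    have : spL (bs b) l.val (b j) = 0 := by
      rw [spL_apply, ← bs_fin b j]
      exact sp_zero _ _ _ h
    rw [this, smul_zero, smul_zero]
  · rw [Function.update_of_ne hj]

/-- The basis of the space of polynomials. -/
noncomputable def Xz (z : Fin a → ZMod p) : K[X] :=
  ∏ l : Fin a, (C ((sp p (bs b) l.val).eval (b l))⁻¹ * sp p (bs b) l.val) ^ (z l).val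

theorem Xz_eval (y z : Fin a → ZMod p) : (Xz b z).eval (pt b y) = ∏ l, cf b l y ^ (z l).val := by
  rw [Xz, eval_prod]
  refine Finset.prod_congr rfl fun l _ => ?_
  rw [eval_pow, eval_mul, eval_C, cf, div_eq_inv_mul]

/-- The number with digits `z`. -/
def num (z : Fin a → ZMod p) : ℕ := ∑ l : Fin a, (z l).val * p ^ l.val

theorem Xz_natDegree [CharP K p] (z : Fin a → ZMod p) : (Xz b z).natDegree = num z := by
  unfold Xz num
  have h1 : ∀ l : Fin a, (C ((sp p (bs b) l.val).eval (b l))⁻¹ * sp p (bs b) l.val).natDegree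
      = p ^ l.val := by
    intro l
    rw [natDegree_C_mul (inv_ne_zero (sp_ne_zero b l))]
    exact (sp_monic_deg (p := p) (bs b) l.val).2
  have hne : ∀ l : Fin a, (C ((sp p (bs b) l.val).eval (b l))⁻¹ * sp p (bs b) l.val) ≠ 0 := by
    intro l
    exact mul_ne_zero (C_ne_zero.2 (inv_ne_zero (sp_ne_zero b l)))
      (sp_monic_deg (p := p) (bs b) l.val).1.ne_zero
  rw [natDegree_prod _ _ (fun l _ => pow_ne_zero _ (hne l))]
  refine Finset.sum_congr rfl fun l _ => ?_
  rw [natDegree_pow, h1]

theorem Xz_ne_zero [CharP K p] (z : Fin a → ZMod p) : Xz b z ≠ 0 := by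
  unfold Xz
  refine Finset.prod_ne_zero_iff.2 fun l _ => pow_ne_zero _ ?_
  exact mul_ne_zero (C_ne_zero.2 (inv_ne_zero (sp_ne_zero b l)))
      (sp_monic_deg (p := p) (bs b) l.val).1.ne_zero

theorem num_injective : Function.Injective (num : (Fin a → ZMod p) → ℕ) := by
  intro z z' h
  have key : ∀ z : Fin a → ZMod p, num z
      = (finFunctionFinEquiv fun l : Fin a => (⟨(z l).val, ZMod.val_lt _⟩ : Fin p)).val := by
    intro z
    rw [finFunctionFinEquiv_apply]
    rfl
  rw [key, key] at h
  have h2 := finFunctionFinEquiv.injective (Fin.ext h)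
  funext l
  have := congrFun h2 l
  simp only [Fin.mk.injEq] at this
  exact ZMod.val_injective p this

theorem num_lt (z : Fin a → ZMod p) (k : ℕ) (hz : ∀ l : Fin a, k ≤ l.val → z l = 0) :
    num z < p ^ k := by
  classical
  let f : ℕ → ℕ := fun l => if h : l < a then (z ⟨l, h⟩).val else 0
  have hf : ∀ l, f l ≤ p - 1 := by
    intro l
    simp only [f]
    split_ifs with h
    · have := ZMod.val_lt (z ⟨l, h⟩); omega
    · omega
  have hk : ∀ l, k ≤ l → f l = 0 := by
    intro l hl
    simp only [f]
    split_ifs with h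
    · rw [hz ⟨l, h⟩ hl]; simp
    · rfl
  have h1 : num z = ∑ l ∈ Finset.range a, f l * p ^ l := by
    rw [← Fin.sum_univ_eq_sum_range (fun l => f l * p ^ l)]
    refine Finset.sum_congr rfl fun l _ => ?_
    simp [f]
  have h2 : ∀ m, ∑ l ∈ Finset.range m, f l * p ^ l ≤ ∑ l ∈ Finset.range k, f l * p ^ l := by
    intro m
    rcases le_total m k with h | h
    · exact Finset.sum_le_sum_of_subset (Finset.range_subset_range.2 h)
    · refine (Finset.sum_subset (Finset.range_subset_range.2 h) ?_).ge
      intro l _ hl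
      rw [hk l (by simpa using hl), zero_mul]
  have h3 : ∀ m, ∑ l ∈ Finset.range m, f l * p ^ l < p ^ m := by
    intro m
    induction m with
    | zero => simp
    | succ m ih =>
      rw [Finset.sum_range_succ, pow_succ]
      have := hf m
      have hp1 := hp.out.one_lt
      have h4 : f m * p ^ m ≤ (p - 1) * p ^ m := Nat.mul_le_mul_right _ this
      have h5 : (p - 1) * p ^ m + p ^ m = p ^ m * p := by
        obtain ⟨r, rfl⟩ : ∃ r, p = r + 1 := ⟨p - 1, by omega⟩
        simp only [Nat.add_sub_cancel]
        ring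
      omega
  rw [h1]
  exact (h2 a).trans_lt (h3 k)

end Basis

end Pool.Agent.H44.RK
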