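import Pool.Agent.H44.RK.Chain

/-!
# From products of matrices supported on few permutations to chains of 2-sparse matrices
-/

namespace Pool.Agent.H44.RK

open Matrix

section Basic

variable {X F : Type} [Fintype X] [DecidableEq X] [Field F]

/-- The part of `M` carried by the graph of the permutation `τ`. -/
def part (τ : Equiv.Perm X) (M : Matrix X X F) : Matrix X X F :=
  fun x x' => if x' = τ x then M x x' else 0

/-- The step `(x, t) ↦ (x, t + part τ M x)`. -/
def tstep (τ : Equiv.Perm X) (M : Matrix X X F) : Matrix (X ⊕ X) (X ⊕ X) F :=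
  fromBlocks 1 0 (part τ M) 1

/-- The step `(x, t) ↦ (t, 0)`. -/
def sstep : Matrix (X ⊕ X) (X ⊕ X) F := fromBlocks 0 1 0 0

/-- The step `(x, t) ↦ (x, 0)`. -/
def pstep : Matrix (X ⊕ X) (X ⊕ X) F := fromBlocks 1 0 0 0

theorem pr_tsteps (τs : List (Equiv.Perm X)) (M : Matrix X X F) :
    pr (τs.map fun τ => tstep τ M) = fromBlocks 1 0 ((τs.map fun τ => part τ M).sum) 1 := by
  induction τs with
  | nil => simp
  | cons τ τs ih =>
    rw [List.map_cons, pr_cons, ih]
    simp only [tstep, List.map_cons, List.sum_cons, fromBlocks_multiply]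
    simp [add_comm]

/-- All steps for one matrix. -/
def gadget (τs : List (Equiv.Perm X)) (M : Matrix X X F) : List (Matrix (X ⊕ X) (X ⊕ X) F) :=
  (τs.map fun τ => tstep τ M) ++ [sstep]

theorem pr_gadget (τs : List (Equiv.Perm X)) (M : Matrix X X F)
    (h : (τs.map fun τ => part τ M).sum = M) : pr (gadget τs M) = fromBlocks M 1 0 0 := by
  unfold gadget
  rw [pr_append, pr_tsteps, h]
  simp [sstep, fromBlocks_multiply]

/-- All steps for a list of matrices. -/
def big (Ms : List (List (Equiv.Perm X) × Matrix X X F)) : List (Matrix (X ⊕ X) (X ⊕ X) F) :=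
  pstep :: Ms.flatMap fun m => gadget m.1 m.2

theorem pr_big (Ms : List (List (Equiv.Perm X) × Matrix X X F))
    (h : ∀ m ∈ Ms, (m.1.map fun τ => part τ m.2).sum = m.2) :
    pr (big Ms) = fromBlocks (pr (Ms.map Prod.snd)) 0 0 0 := by
  have key : ∀ (Ms : List (List (Equiv.Perm X) × Matrix X X F))
      (_ : ∀ m ∈ Ms, (m.1.map fun τ => part τ m.2).sum = m.2) (N : Matrix X X F),
      pr (Ms.flatMap fun m => gadget m.1 m.2) * fromBlocks N 0 0 0
        = fromBlocks (pr (Ms.map Prod.snd) * N) 0 0 0 := by
    intro Ms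
    induction Ms with
    | nil => intro _ N; simp
    | cons m Ms ih =>
      intro h N
      simp only [List.flatMap_cons, pr_append, List.map_cons, pr_cons]
      rw [pr_gadget m.1 m.2 (h m (by simp)), Matrix.mul_assoc, fromBlocks_multiply]
      simp only [Matrix.mul_zero, add_zero, Matrix.zero_mul]
      rw [ih (fun m' hm' => h m' (by simp [hm'])), Matrix.mul_assoc]
  unfold big
  rw [pr_cons]
  have := key Ms h 1
  rw [Matrix.mul_one] at this
  exact this

theorem sparse_two {R C F' : Type} [Fintype R] [Fintype C] [Zero F'] (M : Matrix R C F')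
    (h1 : ∀ i, ∃ a b, ∀ j, M i j ≠ 0 → j = a ∨ j = b)
    (h2 : ∀ j, ∃ a b, ∀ i, M i j ≠ 0 → i = a ∨ i = b) : Sparse 2 M := by
  classical
  refine ⟨fun i => ?_, fun j => ?_⟩
  · obtain ⟨a, b, h⟩ := h1 i
    refine (Finset.card_le_card (t := {a, b}) ?_).trans Finset.card_le_two
    intro j hj
    rw [Finset.mem_filter] at hj
    simpa using h j hj.2
  · obtain ⟨a, b, h⟩ := h2 j
    refine (Finset.card_le_card (t := {a, b}) ?_).trans Finset.card_le_two
    intro i hi
    rw [Finset.mem_filter] at hi
    simpa using h i hi.2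

theorem eq_of_one_apply_ne {x y : X} (h : (1 : Matrix X X F) x y ≠ 0) : x = y := by
  by_contra hne
  exact h (one_apply_ne hne)

theorem sparse_tstep (τ : Equiv.Perm X) (M : Matrix X X F) : Sparse 2 (tstep τ M) := by
  apply sparse_two
  · rintro (x | x)
    · refine ⟨Sum.inl x, Sum.inl x, ?_⟩
      rintro (y | y) hy
      · simp only [tstep, fromBlocks_apply₁₁] at hy
        simp [eq_of_one_apply_ne hy]
      · simp [tstep] at hy
    · refine ⟨Sum.inl (τ x), Sum.inr x, ?_⟩
      rintro (y | y) hy
      · simp only [tstep, fromBlocks_apply₂₁, part] at hy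
        have : y = τ x := by
          by_contra hne
          exact hy (if_neg hne)
        simp [this]
      · simp only [tstep, fromBlocks_apply₂₂] at hy
        simp [eq_of_one_apply_ne hy]
  · rintro (y | y)
    · refine ⟨Sum.inl y, Sum.inr (τ.symm y), ?_⟩
      rintro (x | x) hx
      · simp only [tstep, fromBlocks_apply₁₁] at hx
        simp [eq_of_one_apply_ne hx]
      · simp only [tstep, fromBlocks_apply₂₁, part] at hx
        have : y = τ x := by
          by_contra hne
          exact hx (if_neg hne)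
        simp [this]
    · refine ⟨Sum.inr y, Sum.inr y, ?_⟩
      rintro (x | x) hx
      · simp [tstep] at hx
      · simp only [tstep, fromBlocks_apply₂₂] at hx
        simp [eq_of_one_apply_ne hx]

theorem sparse_sstep : Sparse 2 (sstep : Matrix (X ⊕ X) (X ⊕ X) F) := by
  apply sparse_two
  · rintro (x | x)
    · refine ⟨Sum.inr x, Sum.inr x, ?_⟩
      rintro (y | y) hy
      · simp [sstep] at hy
      · simp only [sstep, fromBlocks_apply₁₂] at hy
        simp [eq_of_one_apply_ne hy]
    · refine ⟨Sum.inr x, Sum.inr x, ?_⟩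
      rintro (y | y) hy <;> simp [sstep] at hy
  · rintro (y | y)
    · refine ⟨Sum.inr y, Sum.inr y, ?_⟩
      rintro (x | x) hx <;> simp [sstep] at hx
    · refine ⟨Sum.inl y, Sum.inr y, ?_⟩
      rintro (x | x) hx
      · simp only [sstep, fromBlocks_apply₁₂] at hx
        simp [eq_of_one_apply_ne hx]
      · simp [sstep] at hx

theorem sparse_pstep : Sparse 2 (pstep : Matrix (X ⊕ X) (X ⊕ X) F) := by
  apply sparse_two
  · rintro (x | x)
    · refine ⟨Sum.inl x, Sum.inl x, ?_⟩
      rintro (y | y) hy
      · simp only [pstep, fromBlocks_apply₁₁] at hy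
        simp [eq_of_one_apply_ne hy]
      · simp [pstep] at hy
    · refine ⟨Sum.inr x, Sum.inr x, ?_⟩
      rintro (y | y) hy <;> simp [pstep] at hy
  · rintro (y | y)
    · refine ⟨Sum.inl y, Sum.inl y, ?_⟩
      rintro (x | x) hx
      · simp only [pstep, fromBlocks_apply₁₁] at hx
        simp [eq_of_one_apply_ne hx]
      · simp [pstep] at hx
    · refine ⟨Sum.inr y, Sum.inr y, ?_⟩
      rintro (x | x) hx <;> simp [pstep] at hx

theorem sparse_big (Ms : List (List (Equiv.Perm X) × Matrix X X F)) :
    ∀ C ∈ big Ms, Sparse 2 C := by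
  intro C hC
  simp only [big, gadget, List.mem_cons, List.mem_flatMap, List.mem_append, List.mem_map,
    List.not_mem_nil, or_false] at hC
  rcases hC with rfl | ⟨m, -, ⟨τ, -, rfl⟩ | rfl⟩
  · exact sparse_pstep
  · exact sparse_tstep _ _
  · exact sparse_sstep

theorem length_big (Ms : List (List (Equiv.Perm X) × Matrix X X F)) (w : ℕ)
    (h : ∀ m ∈ Ms, m.1.length = w) : (big Ms).length = Ms.length * (w + 1) + 1 := by
  simp only [big, List.length_cons, List.length_flatMap]
  congr 1
  have : (Ms.map fun m => (gadget m.1 m.2).length) = Ms.map fun _ => w + 1 := by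
    apply List.map_congr_left
    intro m hm
    simp [gadget, h m hm]
  rw [this]
  simp

theorem rank_fromBlocks_ge (A : Matrix X X F) :
    A.rank ≤ (fromBlocks A 0 0 0 : Matrix (X ⊕ X) (X ⊕ X) F).rank := by
  have h : A = (fromBlocks A 0 0 0 : Matrix (X ⊕ X) (X ⊕ X) F).submatrix Sum.inl Sum.inl := by
    ext i j; rfl
  conv_lhs => rw [h]
  exact rank_submatrix_le _ _ _

end Basic

end Pool.Agent.H44.RK
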